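import Pool.Agent.Y43.NK.Artin
import Pool.Agent.Y778.NK.Reg

/-!
# Artin induction for `K₀(R[G])` with the exponent `|G|`, and traces at the generators

For a finite group `G` and a commutative ring `R` in which the positive integers are invertible, the
multiple `|G| x` of an element `x` of `K₀(R[G])` is a sum of elements induced from cyclic subgroups
`C`, with elements of `K₀(R[C])` whose traces vanish at all elements of `C` which do not generate
`C`.
-/

set_option autoImplicit false

open Matrix

namespace Pool.Agent.K3h89.FJ.Exp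

open Pool.Agent.Y69 Pool.Agent.Y778.NK
open Pool.Agent.H23R2.Cyc (ell ell_single)
open H842 (XX dd tt tC ModT card_dd sum_tC tC_not_cyclic exists_perm_iso exists_int_matrix)
open Pool.Agent.Y69.TK.ArtK (th ps ps_th ps_single psHom)

noncomputable section

section tr

variable {R : Type} [CommRing R] {G : Type} [Group G] [Finite G] {ι : Type} [Fintype ι]
  [DecidableEq ι] {e : Matrix ι ι (MonoidAlgebra R G)}

/-- restriction of the class of an idempotent matrix to a subgroup -/
def resm (C : Subgroup G) (he : e * e = e) : K0 (MonoidAlgebra R C) :=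
  letI := Fintype.ofFinite (G ⧸ C)
  letI := Classical.decEq (G ⧸ C)
  cl0 (Y43.NK.bl (ps C) e) (Y43.NK.bl_idem _ he)

theorem resm_eq (C : Subgroup G) [hF : Fintype (G ⧸ C)] [hD : DecidableEq (G ⧸ C)]
    (he : e * e = e) : resm C he = cl0 (Y43.NK.bl (ps C) e) (Y43.NK.bl_idem _ he) := by
  have key : ∀ (F F' : Fintype (G ⧸ C)) (D D' : DecidableEq (G ⧸ C)),
      (letI := F; letI := D; cl0 (Y43.NK.bl (ps C) e) (Y43.NK.bl_idem _ he)) =
      (letI := F'; letI := D'; cl0 (Y43.NK.bl (ps C) e) (Y43.NK.bl_idem _ he)) := by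
    intro F F' D D'
    obtain rfl : F = F' := Subsingleton.elim _ _
    obtain rfl : D = D' := Subsingleton.elim _ _
    rfl
  exact key _ _ _ _

theorem yy_resm (C : Subgroup G) (he : e * e = e) :
    Y43.NK.yy (G ⧸ C) he =
      K0.map (MonoidAlgebra.mapDomainRingHom R C.subtype) (resm C he) := by
  classical
  let _ := Fintype.ofFinite (G ⧸ C)
  let _ := Classical.decEq (G ⧸ C)
  rw [Y43.NK.yy_eq, resm_eq, K0map_cl0]
  apply cl0_conj _ _
    (Matrix.diagonal fun p : ι × (G ⧸ C) => MonoidAlgebra.of R G (Quotient.out p.2))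
    (Matrix.diagonal fun p : ι × (G ⧸ C) => MonoidAlgebra.of R G (Quotient.out p.2)⁻¹)
  · rw [Matrix.diagonal_mul_diagonal]
    simp only [← map_mul, inv_mul_cancel, map_one, Matrix.diagonal_one]
  · ext ⟨i, x⟩ ⟨j, y⟩ : 1
    rw [Matrix.mul_diagonal, Matrix.diagonal_mul, Matrix.map_apply]
    show th G (G ⧸ C) (e i j) x y = MonoidAlgebra.of R G (Quotient.out x) *
      MonoidAlgebra.mapDomainRingHom R C.subtype (ps C (e i j) x y) *
      MonoidAlgebra.of R G (Quotient.out y)⁻¹
    rw [ps_th, mul_assoc, ← map_mul, mul_inv_cancel, map_one, mul_one]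

open Classical in
/-- the number of the elements `y` with `y⁻¹ g y = c` -/
def Nc [Fintype G] (c g : G) : ℤ := ∑ y : G, if y⁻¹ * g * y = c then 1 else 0

omit [Finite G] in
theorem Nc_cls [Fintype G] (c : G) : IsCls (Nc c) := by
  classical
  intro x y
  unfold Nc
  rw [← Equiv.sum_comp (Equiv.mulLeft x) (fun z : G => if z⁻¹ * (x * y) * z = c then (1 : ℤ) else 0)]
  refine Finset.sum_congr rfl fun z _ => ?_
  have : (Equiv.mulLeft x z)⁻¹ * (x * y) * (Equiv.mulLeft x z) = z⁻¹ * (y * x) * z := by
    show (x * z)⁻¹ * (x * y) * (x * z) = _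
    group
  rw [this]

open Classical in
theorem Nc_eq [Fintype G] (C : Subgroup G) [Fintype (G ⧸ C)] (hC : ∀ a b : C, a * b = b * a) (c : C)
    (g : G) : Nc (c : G) g =
      (Nat.card C : ℤ) * ∑ x : G ⧸ C, if (Quotient.out x)⁻¹ * (g * Quotient.out x) = c then 1 else 0 := by
  have := Fintype.ofFinite C
  let Φ : (G ⧸ C) × C → G := fun p => Quotient.out p.1 * (p.2 : G)
  have hmk : ∀ p, ((Φ p : G) : G ⧸ C) = p.1 := by
    intro p
    show ((Quotient.out p.1 * (p.2 : G) : G) : G ⧸ C) = p.1
    rw [QuotientGroup.mk_mul_of_mem _ p.2.2]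
    exact QuotientGroup.out_eq' p.1
  have hΦ : Function.Bijective Φ := by
    constructor
    · intro p q hpq
      have h1 : p.1 = q.1 := by rw [← hmk p, ← hmk q, hpq]
      have h2 : Quotient.out p.1 * (p.2 : G) = Quotient.out q.1 * (q.2 : G) := hpq
      rw [h1] at h2
      exact Prod.ext h1 (Subtype.ext (mul_left_cancel h2))
    · intro y
      refine ⟨((y : G ⧸ C), ⟨(Quotient.out (y : G ⧸ C))⁻¹ * y, ?_⟩), ?_⟩
      · rw [← QuotientGroup.eq]
        exact QuotientGroup.out_eq' (y : G ⧸ C)
      · show Quotient.out (y : G ⧸ C) * ((Quotient.out (y : G ⧸ C))⁻¹ * y) = y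
        group
  unfold Nc
  rw [← hΦ.sum_comp (fun y : G => if y⁻¹ * g * y = c then (1 : ℤ) else 0), Fintype.sum_prod_type,
    Finset.mul_sum]
  refine Finset.sum_congr rfl fun x _ => ?_
  have h1 : ∀ k : C, (if (Φ (x, k))⁻¹ * g * Φ (x, k) = c then (1 : ℤ) else 0) =
      if (Quotient.out x)⁻¹ * (g * Quotient.out x) = c then 1 else 0 := by
    intro k
    have h2 : (Φ (x, k))⁻¹ * g * Φ (x, k) =
        (k : G)⁻¹ * ((Quotient.out x)⁻¹ * (g * Quotient.out x)) * k := by
      show (Quotient.out x * (k : G))⁻¹ * g * (Quotient.out x * (k : G)) = _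
      group
    rw [h2]
    have hk : (k : G) * c = c * k := congrArg Subtype.val (hC k c)
    have h3 : (k : G)⁻¹ * ((Quotient.out x)⁻¹ * (g * Quotient.out x)) * k = c ↔
        (Quotient.out x)⁻¹ * (g * Quotient.out x) = c := by
      constructor
      · intro h
        have h4 : (Quotient.out x)⁻¹ * (g * Quotient.out x) = (k : G) * c * (k : G)⁻¹ := by
          rw [← h]; group
        rw [h4, hk, mul_inv_cancel_right]
      · intro h
        rw [h, mul_assoc, ← hk, inv_mul_cancel_left]
    simp only [h3]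
  rw [Finset.sum_congr rfl fun k _ => h1 k, Finset.sum_const, Finset.card_univ,
    ← Nat.card_eq_fintype_card, nsmul_eq_mul]

theorem ell_ps [Fintype G] (C : Subgroup G) [Fintype (G ⧸ C)] [DecidableEq (G ⧸ C)]
    (hC : ∀ a b : C, a * b = b * a) (c : C) (a : MonoidAlgebra R G) :
    (Nat.card C : R) * ∑ x : G ⧸ C, ell (fun g => ((cind c g : ℤ) : R)) (ps C a x x) =
      ell (fun g => ((Nc (c : G) g : ℤ) : R)) a := by
  classical
  have hcc : ∀ y : C, cind c y = if y = c then 1 else 0 := by
    intro y
    unfold cind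
    have : IsConj c y ↔ y = c := by
      constructor
      · intro h
        obtain ⟨k, rfl⟩ := isConj_iff.1 h
        rw [hC k c, mul_inv_cancel_right]
      · rintro rfl
        exact IsConj.refl _
    simp only [this]
  induction a using MonoidAlgebra.induction_linear with
  | zero => simp
  | add a b ha hb =>
    rw [map_add (ell (fun g => ((Nc (c : G) g : ℤ) : R))), ← ha, ← hb, ← mul_add,
      ← Finset.sum_add_distrib]
    refine congrArg (fun t : R => (Nat.card C : R) * t) (Finset.sum_congr rfl fun x _ => ?_)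
    rw [← map_add (ell (fun g => ((cind c g : ℤ) : R)))]
    refine congrArg (ell (fun g => ((cind c g : ℤ) : R))) ?_
    rw [map_add]
    rfl
  | single g r =>
    have h0 : ∀ t u v : R, u = r * v → t * u = r * (t * v) := by
      intro t u v h
      rw [h]; ring
    rw [ell_single, Nc_eq C hC, Int.cast_mul, Int.cast_natCast, Int.cast_sum]
    apply h0
    rw [Finset.mul_sum]
    refine Finset.sum_congr rfl fun x _ => ?_
    rw [ps_single, Matrix.smul_apply]
    show ell (fun g => ((cind c g : ℤ) : R)) (r • (if h : g • x = x then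
      MonoidAlgebra.of R C ⟨(Quotient.out x)⁻¹ * (g * Quotient.out x), _⟩ else 0)) = _
    by_cases hx : g • x = x
    · rw [dif_pos hx, MonoidAlgebra.of_apply, MonoidAlgebra.smul_single, smul_eq_mul, mul_one,
        ell_single, hcc]
      by_cases hy : (Quotient.out x)⁻¹ * (g * Quotient.out x) = c
      · rw [if_pos hy, if_pos (Subtype.ext hy)]
      · rw [if_neg hy, if_neg fun h => hy (congrArg Subtype.val h)]
    · rw [dif_neg hx, smul_zero, map_zero, if_neg, Int.cast_zero, mul_zero]
      intro hy
      apply hx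
      have h1 : g * Quotient.out x = Quotient.out x * (c : G) := by
        rw [← hy]; group
      have h2 : ((g * Quotient.out x : G) : G ⧸ C) = x := by
        rw [h1, QuotientGroup.mk_mul_of_mem _ c.2]
        exact QuotientGroup.out_eq' x
      have h3 : g • x = g • ((Quotient.out x : G) : G ⧸ C) := by
        rw [QuotientGroup.out_eq' x]
      rw [h3]
      exact h2

theorem T_resm [Fintype G] (C : Subgroup G) (hC : ∀ a b : C, a * b = b * a) (he : e * e = e)
    (c : C) : (Nat.card C : R) * T R (cind c) (resm C he) = T R (Nc (c : G)) (cl0 e he) := by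
  classical
  let _ := Fintype.ofFinite (G ⧸ C)
  rw [resm_eq, T_cl0 (cind_cls c), T_cl0 (Nc_cls _)]
  unfold hs
  rw [Fintype.sum_prod_type, Finset.mul_sum]
  exact Finset.sum_congr rfl fun i _ => ell_ps C hC c (e i i)

/-- linear combinations of the functions `dd` -/
def Dd [Fintype G] (a : Subgroup G → ℤ) : ModT G → ℚ := ∑ E : Subgroup G, a E • dd E

/-- the corresponding elements -/
def Yy [Fintype G] (he : e * e = e) (a : Subgroup G → ℤ) : K0 (MonoidAlgebra R G) :=
  ∑ E : Subgroup G, a E • Y43.NK.yy (G ⧸ E) he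

omit [Finite G] in
theorem Dd_add [Fintype G] (a b : Subgroup G → ℤ) : Dd (a + b) = Dd a + Dd b := by
  unfold Dd
  rw [← Finset.sum_add_distrib]
  exact Finset.sum_congr rfl fun E _ => add_smul _ _ _

theorem Yy_add [Fintype G] (he : e * e = e) (a b : Subgroup G → ℤ) :
    Yy he (a + b) = Yy he a + Yy he b := by
  unfold Yy
  rw [← Finset.sum_add_distrib]
  exact Finset.sum_congr rfl fun E _ => add_smul _ _ _

omit [Finite G] in
theorem Dd_neg [Fintype G] (a : Subgroup G → ℤ) : Dd (-a) = -Dd a := by
  unfold Dd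
  rw [← Finset.sum_neg_distrib]
  exact Finset.sum_congr rfl fun E _ => neg_smul _ _

theorem Yy_neg [Fintype G] (he : e * e = e) (a : Subgroup G → ℤ) :
    Yy he (-a) = -Yy he a := by
  unfold Yy
  rw [← Finset.sum_neg_distrib]
  exact Finset.sum_congr rfl fun E _ => neg_smul _ _

omit [Finite G] in
theorem Dd_sum [Fintype G] {κ : Type} (s : Finset κ) (a : κ → Subgroup G → ℤ) :
    Dd (∑ i ∈ s, a i) = ∑ i ∈ s, Dd (a i) := by
  classical
  induction s using Finset.induction_on with
  | empty => simp [Dd]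
  | insert i s hi ih => rw [Finset.sum_insert hi, Finset.sum_insert hi, Dd_add, ih]

theorem Yy_sum [Fintype G] (he : e * e = e) {κ : Type} (s : Finset κ) (a : κ → Subgroup G → ℤ) :
    Yy he (∑ i ∈ s, a i) = ∑ i ∈ s, Yy he (a i) := by
  classical
  induction s using Finset.induction_on with
  | empty => simp [Yy]
  | insert i s hi ih => rw [Finset.sum_insert hi, Finset.sum_insert hi, Yy_add, ih]

omit [Finite G] in
open Classical in
theorem Dd_single [Fintype G] (E : Subgroup G) (k : ℤ) : Dd (Pi.single E k) = k • dd E := by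
  unfold Dd
  rw [Finset.sum_eq_single E, Pi.single_eq_same]
  · intro F _ hF
    rw [Pi.single_eq_of_ne hF, zero_smul]
  · intro h; exact absurd (Finset.mem_univ _) h

open Classical in
theorem Yy_single [Fintype G] (he : e * e = e) (E : Subgroup G) (k : ℤ) :
    Yy he (Pi.single E k) = k • Y43.NK.yy (G ⧸ E) he := by
  unfold Yy
  rw [Finset.sum_eq_single E, Pi.single_eq_same]
  · intro F _ hF
    rw [Pi.single_eq_of_ne hF, zero_smul]
  · intro h; exact absurd (Finset.mem_univ _) h

/-- isomorphic permutation representations -/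
theorem yy_perm [Fintype G] (hR : ∀ n : ℕ, 0 < n → IsUnit (n : R)) (he : e * e = e)
    {n n' : ℕ} (B : Fin n → Subgroup G) (B' : Fin n' → Subgroup G)
    (h : ∑ i, dd (B i) = ∑ j, dd (B' j)) :
    ∑ i, Y43.NK.yy (G ⧸ B i) he = ∑ j, Y43.NK.yy (G ⧸ B' j) he := by
  classical
  obtain ⟨f⟩ := exists_perm_iso B B' h
  have hf1 := Fintype.ofFinite (XX B)
  have hf2 := Fintype.ofFinite (XX B')
  obtain ⟨P, Q, δ, hδ, h1, h2, h3⟩ := exists_int_matrix f
  rw [← Y43.NK.yy_XX he n B, ← Y43.NK.yy_XX he n' B']
  exact Y43.NK.yy_compare he P Q δ (hR δ hδ) h1 h2 h3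

theorem sum_mult {κ : Type} [Fintype κ] {A : Type*} [AddCommGroup A] (c : κ → ℕ) (f : κ → A) :
    ∑ E, (fun E => ((c E : ℕ) : ℤ)) E • f E =
      ∑ i : Fin (Fintype.card (Σ E : κ, Fin (c E))),
        f ((Fintype.equivFin (Σ E : κ, Fin (c E))).symm i).1 := by
  rw [(Fintype.equivFin (Σ E : κ, Fin (c E))).symm.sum_comp
    (fun x : Σ E : κ, Fin (c E) => f x.1), Fintype.sum_sigma]
  refine Finset.sum_congr rfl fun E _ => ?_
  show ((c E : ℕ) : ℤ) • f E = ∑ _x : Fin (c E), f E
  rw [Finset.sum_const, Finset.card_univ, Fintype.card_fin, natCast_zsmul]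

theorem Yy_nonneg [Fintype G] (hR : ∀ n : ℕ, 0 < n → IsUnit (n : R)) (he : e * e = e)
    (a b : Subgroup G → ℕ) (h : Dd (fun E => (a E : ℤ)) = Dd fun E => (b E : ℤ)) :
    Yy he (fun E => (a E : ℤ)) = Yy he fun E => (b E : ℤ) := by
  classical
  unfold Dd at h
  unfold Yy
  rw [sum_mult a, sum_mult b] at h
  rw [sum_mult a, sum_mult b]
  exact yy_perm hR he _ _ h

theorem Yy_of_Dd [Fintype G] (hR : ∀ n : ℕ, 0 < n → IsUnit (n : R)) (he : e * e = e)
    (a b : Subgroup G → ℤ) (h : Dd a = Dd b) : Yy he a = Yy he b := by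
  have h1 : a - b = (fun E => (((a E - b E).toNat : ℕ) : ℤ)) -
      fun E => (((b E - a E).toNat : ℕ) : ℤ) := by
    funext E
    show a E - b E = (((a E - b E).toNat : ℕ) : ℤ) - (((b E - a E).toNat : ℕ) : ℤ)
    omega
  have h2 : Dd (a - b) = 0 := by
    rw [sub_eq_add_neg, Dd_add, Dd_neg, h, add_neg_cancel]
  rw [h1, sub_eq_add_neg, Dd_add, Dd_neg, ← sub_eq_add_neg, sub_eq_zero] at h2
  have h3 := Yy_nonneg hR he _ _ h2
  have h4 : Yy he (a - b) = 0 := by
    rw [h1, sub_eq_add_neg, Yy_add, Yy_neg, h3, add_neg_cancel]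
  rwa [sub_eq_add_neg, Yy_add, Yy_neg, ← sub_eq_add_neg, sub_eq_zero] at h4

end tr

section rec

variable {R : Type} [CommRing R]

theorem cind_comm {C : Type} [Group C] (hC : ∀ a b : C, a * b = b * a) [DecidableEq C] (c y : C) :
    cind c y = if y = c then 1 else 0 := by
  classical
  unfold cind
  have : IsConj c y ↔ y = c := by
    constructor
    · intro h
      obtain ⟨k, rfl⟩ := isConj_iff.1 h
      rw [hC k c, mul_inv_cancel_right]
    · rintro rfl
      exact IsConj.refl _
  by_cases h : y = c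
  · rw [if_pos h, if_pos (this.2 h)]
  · rw [if_neg h, if_neg fun h' => h (this.1 h')]

theorem T_zero {G : Type} [Group G] (u : K0 (MonoidAlgebra R G)) : T R (fun _ => 0) u = 0 := by
  obtain ⟨X, hX⟩ := T_repr u
  rw [hX _ (fun _ _ => rfl), Pool.Agent.H23R2.Cyc.ell_eq_sum _ X.coeff.support X
    fun g hg => Finsupp.mem_support_iff.2 hg]
  simp

open Classical in
theorem T_incl {G : Type} [Group G] {B C : Subgroup G} (hC : ∀ a b : C, a * b = b * a)
    (h : B ≤ C) (W : K0 (MonoidAlgebra R B)) (c : C) :
    T R (cind c) (K0.map (MonoidAlgebra.mapDomainRingHom R (Subgroup.inclusion h)) W) =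
      if hc : (c : G) ∈ B then T R (cind (⟨c, hc⟩ : B)) W else 0 := by
  have hB : ∀ a b : B, a * b = b * a := fun a b => by
    have h1 := congrArg (Subtype.val : C → G)
      (hC (Subgroup.inclusion h a) (Subgroup.inclusion h b))
    have h2 : (a : G) * b = b * a := h1
    exact Subtype.ext h2
  rw [T_map _ (cind_cls c)]
  by_cases hc : (c : G) ∈ B
  · rw [dif_pos hc]
    congr 1
    congr 1
    funext b
    rw [cind_comm hC, cind_comm hB]
    by_cases hb : (b : G) = c
    · rw [if_pos (Subtype.ext hb), if_pos (Subtype.ext hb)]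
    · rw [if_neg fun h' => hb (congrArg Subtype.val h'), if_neg fun h' => hb (congrArg Subtype.val h')]
  · rw [dif_neg hc, ← T_zero W]
    congr 1
    congr 1
    funext b
    rw [cind_comm hC, if_neg]
    intro h'
    have h2 : (b : G) = c := congrArg Subtype.val h'
    exact hc (h2 ▸ b.2)

variable {G : Type} [Group G] [Finite G] {ι : Type} [Fintype ι]
  [DecidableEq ι] {e : Matrix ι ι (MonoidAlgebra R G)}

open Classical in
theorem rec_step [Fintype G] (he : e * e = e) (C : Subgroup G) :
    ∃ (W : K0 (MonoidAlgebra R C)) (a : Subgroup G → ℤ), Dd a = tC C ∧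
      Yy he a = K0.map (MonoidAlgebra.mapDomainRingHom R C.subtype) W ∧
      (¬ IsCyclic C → W = 0) ∧
      (IsCyclic C → ∀ c : C, T R (cind c) W =
        if Subgroup.zpowers (c : G) = C then T R (Nc (c : G)) (cl0 e he) else 0) := by
  induction C using WellFoundedLT.induction with
  | ind C ih =>
  by_cases hcyc : IsCyclic C
  · choose W a h1 h2 _ h4 using ih
    have hC : ∀ a b : C, a * b = b * a := fun a b => by
      let _ := IsCyclic.commGroup (α := C)
      exact mul_comm a b
    refine ⟨(Nat.card C) • resm C he - ∑ B : {B : Subgroup G // B < C},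
      K0.map (MonoidAlgebra.mapDomainRingHom R (Subgroup.inclusion B.2.le)) (W B.1 B.2),
      Pi.single C ((Nat.card C : ℕ) : ℤ) - ∑ B : {B : Subgroup G // B < C}, a B.1 B.2,
      ?_, ?_, fun h => absurd hcyc h, fun _ c => ?_⟩
    · rw [sub_eq_add_neg, Dd_add, Dd_neg, Dd_single, Dd_sum, natCast_zsmul,
        ← Nat.cast_smul_eq_nsmul ℚ, card_dd, sum_tC]
      have e1 : (Finset.univ.filter (fun B : Subgroup G => B ≤ C)) =
          insert C (Finset.univ.filter (fun B : Subgroup G => B < C)) := by
        ext B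
        simp only [Finset.mem_filter, Finset.mem_univ, true_and, Finset.mem_insert]
        exact le_iff_eq_or_lt
      rw [e1, Finset.sum_insert (by simp)]
      have e2 : ∑ B : {B : Subgroup G // B < C}, Dd (a B.1 B.2) =
          ∑ B ∈ Finset.univ.filter (fun B : Subgroup G => B < C), tC B := by
        rw [Finset.sum_congr rfl fun B _ => h1 B.1 B.2]
        exact (Finset.sum_subtype (Finset.univ.filter (fun B : Subgroup G => B < C)) (by simp)
          (fun B => tC B)).symm
      rw [e2]
      abel
    · rw [sub_eq_add_neg, Yy_add, Yy_neg, Yy_single, Yy_sum, natCast_zsmul, map_sub, map_nsmul,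
        ← yy_resm, map_sum, ← sub_eq_add_neg]
      congr 1
      refine Finset.sum_congr rfl fun B _ => ?_
      rw [h2, K0map_comp, mapDomainRingHom_comp']
      rfl
    · rw [map_sub, map_nsmul, nsmul_eq_mul, T_resm C hC he c, map_sum]
      have e3 : ∀ B : {B : Subgroup G // B < C}, T R (cind c)
          (K0.map (MonoidAlgebra.mapDomainRingHom R (Subgroup.inclusion B.2.le)) (W B.1 B.2)) =
          if Subgroup.zpowers (c : G) = B.1 then T R (Nc (c : G)) (cl0 e he) else 0 := by
        intro B
        rw [T_incl hC]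
        by_cases hc : (c : G) ∈ B.1
        · rw [dif_pos hc, h4 B.1 B.2 (isCyclic_of_injective (Subgroup.inclusion B.2.le)
            (Subgroup.inclusion_injective _))]
        · rw [dif_neg hc, if_neg]
          intro h
          exact hc (h ▸ Subgroup.mem_zpowers _)
      rw [Finset.sum_congr rfl fun B _ => e3 B]
      have hle : Subgroup.zpowers (c : G) ≤ C := (Subgroup.zpowers_le).2 c.2
      by_cases h : Subgroup.zpowers (c : G) = C
      · rw [if_pos h, Finset.sum_eq_zero, sub_zero]
        intro B _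
        rw [if_neg]
        intro h'
        have := B.2
        rw [← h', h] at this
        exact lt_irrefl _ this
      · rw [if_neg h, Finset.sum_eq_single ⟨Subgroup.zpowers (c : G), lt_of_le_of_ne hle h⟩,
          if_pos rfl, sub_self]
        · intro B _ hB
          rw [if_neg]
          intro h'
          exact hB (Subtype.ext h'.symm)
        · intro h; exact absurd (Finset.mem_univ _) h
  · refine ⟨0, 0, ?_, ?_, fun _ => rfl, fun h => absurd h hcyc⟩
    · rw [tC_not_cyclic C hcyc]
      simp [Dd]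
    · rw [map_zero]
      simp [Yy]

end rec

theorem zp_top {G : Type} [Group G] {C : Subgroup G} (c : C) :
    Subgroup.zpowers (c : G) = C ↔ Subgroup.zpowers c = ⊤ := by
  have h1 : (Subgroup.zpowers c).map C.subtype = Subgroup.zpowers (c : G) := by
    rw [MonoidHom.map_zpowers]; rfl
  constructor
  · intro h
    apply Subgroup.map_injective C.subtype_injective
    rw [h1, h, ← MonoidHom.range_eq_map, Subgroup.range_subtype]
  · intro h
    rw [← h1, h, ← MonoidHom.range_eq_map, Subgroup.range_subtype]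

/-- Artin induction with the exponent `|G|` and elements supported at the generators -/
theorem artin_gen {R : Type} [CommRing R] (hR : ∀ n : ℕ, 0 < n → IsUnit (n : R)) {G : Type}
    [Group G] [Finite G] (x : K0 (MonoidAlgebra R G)) :
    Nat.card G • x ∈ AddSubgroup.closure {y | ∃ (C : Subgroup G) (_ : IsCyclic C)
      (z : K0 (MonoidAlgebra R C)), (∀ c : C, Subgroup.zpowers c ≠ ⊤ → T R (cind c) z = 0) ∧
      y = K0.map (MonoidAlgebra.mapDomainRingHom R C.subtype) z} := by
  classical
  have := Fintype.ofFinite G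
  induction x using K0.induction with
  | hadd x y hx hy => rw [smul_add]; exact AddSubgroup.add_mem _ hx hy
  | hneg x hx => rw [smul_neg]; exact AddSubgroup.neg_mem _ hx
  | hcl n e he =>
    choose W a h1 h2 h3 h4 using rec_step (R := R) (e := e) he
    have h5 : Dd (Pi.single (⊤ : Subgroup G) ((Nat.card G : ℕ) : ℤ)) = Dd (∑ C, a C) := by
      rw [Dd_single, Dd_sum, natCast_zsmul, ← Nat.cast_smul_eq_nsmul ℚ]
      have h6 := card_dd (⊤ : Subgroup G)
      rw [Subgroup.card_top, sum_tC] at h6
      rw [h6, Finset.sum_congr rfl fun C _ => h1 C]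
      simp
    have h6 := Yy_of_Dd hR he _ _ h5
    have h7 : Y43.NK.yy (G ⧸ (⊤ : Subgroup G)) he = cl0 e he := by
      have : Subsingleton (G ⧸ (⊤ : Subgroup G)) := QuotientGroup.subsingleton_quotient_top
      let _ : Unique (G ⧸ (⊤ : Subgroup G)) :=
        ⟨⟨((1 : G) : G ⧸ (⊤ : Subgroup G))⟩, fun _ => Subsingleton.elim _ _⟩
      exact Y43.NK.yy_point he
    rw [Yy_single, natCast_zsmul, h7, Yy_sum] at h6
    rw [h6]
    apply AddSubgroup.sum_mem
    intro C _
    rw [h2]
    by_cases hC : IsCyclic C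
    · refine AddSubgroup.subset_closure ⟨C, hC, W C, fun c hc => ?_, rfl⟩
      rw [h4 C hC c, if_neg]
      rwa [zp_top]
    · rw [h3 C hC, map_zero]
      exact AddSubgroup.zero_mem _

end

end Pool.Agent.K3h89.FJ.Exp
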