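import Pool.Agent.K3h89.FJ.ExpA

/-!
# Normal forms in the colimit of the groups `K₀(R[H])`
-/

set_option autoImplicit false

open Matrix

namespace Pool.Agent.K3h89.FJ.Exp

open MonoidAlgebra Pool.Agent.Y69 Pool.Agent.Y778.NK

noncomputable section

section reps

variable (G : Type) [Group G]

/-- conjugacy of finite subgroups -/
def cjs : Setoid (FinSub G) where
  r H K := ∃ g : G, K.1 = H.1.map (MulAut.conj g).toMonoidHom
  iseqv := by
    refine ⟨fun H => ⟨1, ?_⟩, ?_, ?_⟩
    · ext x
      simp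
    · rintro H K ⟨g, hg⟩
      refine ⟨g⁻¹, ?_⟩
      rw [hg, Subgroup.map_map]
      ext x
      simp [mul_assoc]
    · rintro H K L ⟨g, hg⟩ ⟨k, hk⟩
      refine ⟨k * g, ?_⟩
      rw [hk, hg, Subgroup.map_map]
      congr 1
      ext x
      simp [mul_assoc]

variable {G}

/-- a chosen representative -/
def rp (H : FinSub G) : FinSub G := Quotient.out (Quotient.mk (cjs G) H)

theorem rp_conj (H : FinSub G) : ∃ g : G, (rp H).1 = H.1.map (MulAut.conj g).toMonoidHom := by
  have h1 : (Quotient.mk (cjs G) (rp H)) = Quotient.mk (cjs G) H := Quotient.out_eq _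
  have h2 : (cjs G).r (rp H) H := Quotient.exact h1
  exact (cjs G).symm h2

theorem rp_eq {H K : FinSub G} (h : ∃ g : G, K.1 = H.1.map (MulAut.conj g).toMonoidHom) :
    rp H = rp K := by
  unfold rp
  congr 1
  exact Quotient.sound h

theorem rp_rp (H : FinSub G) : rp (rp H) = rp H := (rp_eq (rp_conj H)).symm

/-- conjugation as an isomorphism -/
def cjE {H K : Subgroup G} (g : G) (h : K = H.map (MulAut.conj g).toMonoidHom) : H ≃* K :=
  ((MulAut.conj g).subgroupMap H).trans (MulEquiv.subgroupCongr h.symm)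

theorem cjE_apply {H K : Subgroup G} (g : G) (h : K = H.map (MulAut.conj g).toMonoidHom)
    (x : H) : (cjE g h x : G) = g * x * g⁻¹ := rfl

end reps

section tr

variable {R : Type} [CommRing R]

theorem cind_equiv {H K : Type} [Group H] [Group K] (φ : H ≃* K) (k : K) (h : H) :
    cind k (φ h) = cind (φ.symm k) h := by
  classical
  unfold cind
  have : IsConj k (φ h) ↔ IsConj (φ.symm k) h := by
    constructor
    · intro h1
      have := φ.symm.toMonoidHom.map_isConj h1
      simp only [MulEquiv.toMonoidHom_eq_coe, MonoidHom.coe_coe] at this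
      rwa [MulEquiv.symm_apply_apply] at this
    · intro h1
      have := φ.toMonoidHom.map_isConj h1
      simp only [MulEquiv.toMonoidHom_eq_coe, MonoidHom.coe_coe] at this
      rwa [MulEquiv.apply_symm_apply] at this
  by_cases h1 : IsConj k (φ h)
  · rw [if_pos h1, if_pos (this.1 h1)]
  · rw [if_neg h1, if_neg fun h' => h1 (this.2 h')]

theorem T_equiv {H K : Type} [Group H] [Group K] (φ : H ≃* K) (k : K)
    (z : K0 (MonoidAlgebra R H)) :
    T R (cind k) (K0.map (mapDomainRingHom R φ.toMonoidHom) z) = T R (cind (φ.symm k)) z := by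
  rw [T_map _ (cind_cls k)]
  congr 1
  congr 1
  funext h
  exact cind_equiv φ k h

theorem zp_equiv {H K : Type} [Group H] [Group K] (φ : H ≃* K) (h : H) :
    Subgroup.zpowers (φ h) = ⊤ ↔ Subgroup.zpowers h = ⊤ := by
  rw [Subgroup.eq_top_iff', Subgroup.eq_top_iff']
  constructor
  · intro h1 x
    obtain ⟨k, hk⟩ := Subgroup.mem_zpowers_iff.1 (h1 (φ x))
    refine Subgroup.mem_zpowers_iff.2 ⟨k, φ.injective ?_⟩
    rw [map_zpow, hk]
  · intro h1 x
    obtain ⟨k, hk⟩ := Subgroup.mem_zpowers_iff.1 (h1 (φ.symm x))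
    refine Subgroup.mem_zpowers_iff.2 ⟨k, φ.symm.injective ?_⟩
    rw [map_zpow, MulEquiv.symm_apply_apply, hk]

theorem T_sum_comm {C : Type} [Group C] (hC : ∀ a b : C, a * b = b * a) [Fintype C]
    (h : C → ℤ) (u : K0 (MonoidAlgebra R C)) :
    T R h u = ∑ c, T R (cind c) u * ((h c : ℤ) : R) := by
  classical
  obtain ⟨X, hX⟩ := T_repr u
  have hcl : ∀ f : C → ℤ, IsCls f := fun f x y => by rw [hC]
  have h4 : ∀ f : C → R, Pool.Agent.H23R2.Cyc.ell f X = ∑ g : C, X.coeff g * f g := fun f =>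
    Pool.Agent.H23R2.Cyc.ell_eq_sum f _ X fun g _ => Finset.mem_univ g
  rw [hX h (hcl h), h4]
  refine Finset.sum_congr rfl fun c _ => ?_
  congr 1
  rw [hX _ (cind_cls c), h4, Finset.sum_eq_single c]
  · rw [cind_comm hC, if_pos rfl, Int.cast_one, mul_one]
  · intro b _ hb
    rw [cind_comm hC, if_neg hb, Int.cast_zero, mul_zero]
  · intro h; exact absurd (Finset.mem_univ c) h

/-- elements supported at the generators -/
def Sup (R : Type) [CommRing R] (C : Type) [Group C] : AddSubgroup (K0 (MonoidAlgebra R C)) where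
  carrier := {z | ∀ c : C, Subgroup.zpowers c ≠ ⊤ → T R (cind c) z = 0}
  zero_mem' := fun c _ => map_zero _
  add_mem' := fun {a b} ha hb c hc => by
    rw [map_add, ha c hc, hb c hc, add_zero]
  neg_mem' := fun {a} ha c hc => by
    rw [map_neg, ha c hc, neg_zero]

theorem sup_equiv {H K : Type} [Group H] [Group K] (φ : H ≃* K)
    {z : K0 (MonoidAlgebra R H)} (hz : z ∈ Sup R H) :
    K0.map (mapDomainRingHom R φ.toMonoidHom) z ∈ Sup R K := by
  intro k hk
  rw [T_equiv]
  apply hz
  intro h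
  apply hk
  rw [← zp_equiv φ, MulEquiv.apply_symm_apply] at h
  exact h

end tr

section gam

variable {G : Type} [Group G]

/-- the automorphisms of `H` induced by conjugation -/
def Gam (H : Subgroup G) : Subgroup (MulAut H) := H.normalizerMonoidHom.range

theorem mem_Gam {H : Subgroup G} {σ : MulAut H} :
    σ ∈ Gam H ↔ ∃ g : G, ∀ h : H, (σ h : G) = g * h * g⁻¹ := by
  constructor
  · rintro ⟨g, rfl⟩
    exact ⟨g, fun h => rfl⟩
  · rintro ⟨g, hg⟩
    have hn : g ∈ Subgroup.normalizer (H : Set G) := by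
      rw [Subgroup.mem_normalizer_iff]
      intro x
      constructor
      · intro hx
        have := (σ ⟨x, hx⟩).2
        rw [hg] at this
        exact this
      · intro hx
        have h1 := hg (σ.symm ⟨_, hx⟩)
        rw [MulEquiv.apply_symm_apply] at h1
        have h2 : x = (σ.symm ⟨_, hx⟩ : H) := mul_left_cancel (mul_right_cancel h1)
        rw [h2]
        exact (σ.symm ⟨_, hx⟩ : H).2
    refine ⟨⟨g, hn⟩, ?_⟩
    ext h
    exact (hg h).symm

theorem card_Gam (H : Subgroup G) : Nat.card (Gam H) =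
    (Subgroup.centralizer (H : Set G)).relIndex (Subgroup.normalizer (H : Set G)) := by
  unfold Gam
  rw [← Subgroup.index_ker, Subgroup.normalizerMonoidHom_ker]
  rfl

instance finAut (H : Type) [Group H] [Finite H] : Finite (MulAut H) :=
  Finite.of_injective (fun σ : MulAut H => (σ : H → H)) DFunLike.coe_injective

/-- averaging over the automorphisms -/
def av (R : Type) [CommRing R] (H : FinSub G) :
    K0 (MonoidAlgebra R H.1) →+ K0 (MonoidAlgebra R H.1) :=
  letI := H.2
  letI := Fintype.ofFinite (Gam H.1)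
  ∑ σ : Gam H.1, K0.map (mapDomainRingHom R (σ : MulAut H.1).toMonoidHom)

variable {R : Type} [CommRing R]

theorem ci_av (H : FinSub G) (z : K0 (MonoidAlgebra R H.1)) :
    ci H (av R H z) = Nat.card (Gam H.1) • ci H z := by
  have := H.2
  let _ := Fintype.ofFinite (Gam H.1)
  unfold av
  rw [AddMonoidHom.finsetSum_apply, map_sum]
  have h1 : ∀ σ : Gam H.1, ci H (K0.map (mapDomainRingHom R (σ : MulAut H.1).toMonoidHom) z) =
      ci H z := by
    intro σ
    obtain ⟨g, hg⟩ := mem_Gam.1 σ.2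
    exact ci_rel H H g _ hg z
  rw [Finset.sum_congr rfl fun σ _ => h1 σ, Finset.sum_const, Finset.card_univ,
    Nat.card_eq_fintype_card]

theorem av_sup (H : FinSub G) {z : K0 (MonoidAlgebra R H.1)} (hz : z ∈ Sup R H.1) :
    av R H z ∈ Sup R H.1 := by
  unfold av
  rw [AddMonoidHom.finsetSum_apply]
  exact AddSubgroup.sum_mem _ fun σ _ => sup_equiv (σ : MulAut H.1) hz

end gam

section nf

variable {R : Type} [CommRing R] {G : Type} [Group G]

theorem comm_of_cyclic {C : Type} [Group C] (h : IsCyclic C) (a b : C) : a * b = b * a := by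
  let _ := IsCyclic.commGroup (α := C)
  exact mul_comm a b

theorem map_conj_zpowers (g h : G) : (Subgroup.zpowers h).map (MulAut.conj g).toMonoidHom =
    Subgroup.zpowers (g * h * g⁻¹) := by
  rw [MonoidHom.map_zpowers]
  rfl

theorem TC_gen (H : FinSub G) (hH : IsCyclic H.1) {z : K0 (MonoidAlgebra R H.1)}
    (hz : z ∈ Sup R H.1) (h : H.1) (hh : Subgroup.zpowers h = ⊤) :
    TC R (cind (h : G)) (ci H z) = T R (cind h) (av R H z) := by
  classical
  have := H.2
  have hC := comm_of_cyclic hH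
  let _ := Fintype.ofFinite H.1
  let _ := Fintype.ofFinite (Gam H.1)
  rw [TC_ci (cind_cls _), T_sum_comm hC]
  unfold av
  rw [AddMonoidHom.finsetSum_apply, map_sum]
  have e1 : ∀ σ : Gam H.1, T R (cind h)
      (K0.map (mapDomainRingHom R (σ : MulAut H.1).toMonoidHom) z) =
      T R (cind ((σ : MulAut H.1).symm h)) z := fun σ => T_equiv _ _ _
  rw [Finset.sum_congr rfl fun σ _ => e1 σ]
  symm
  have hgen : ∀ x : H.1, ∃ k : ℤ, x = h ^ k := by
    intro x
    have : x ∈ Subgroup.zpowers h := hh ▸ Subgroup.mem_top x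
    obtain ⟨k, hk⟩ := Subgroup.mem_zpowers_iff.1 this
    exact ⟨k, hk.symm⟩
  apply Finset.sum_of_injOn (fun σ : Gam H.1 => (σ : MulAut H.1).symm h)
  · intro σ _ τ _ hst
    have h1 : (σ : MulAut H.1).symm h = (τ : MulAut H.1).symm h := hst
    apply Subtype.ext
    apply MulEquiv.ext
    intro x
    obtain ⟨k, hk⟩ := hgen ((σ : MulAut H.1) x)
    have h2 : x = ((σ : MulAut H.1).symm h) ^ k := by
      rw [← map_zpow, ← hk, MulEquiv.symm_apply_apply]
    have h3 : (τ : MulAut H.1) x = h ^ k := by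
      conv_lhs => rw [h2, h1]
      rw [← map_zpow, MulEquiv.apply_symm_apply]
    rw [hk, h3]
  · intro σ _
    exact Finset.mem_coe.2 (Finset.mem_univ _)
  · intro c _ hc
    by_cases hcg : Subgroup.zpowers c = ⊤
    · have h1 : cind (h : G) (c : G) = 0 := by
        unfold cind
        rw [if_neg]
        intro hconj
        obtain ⟨g, hg⟩ := isConj_iff.1 hconj
        apply hc
        have h2 : H.1 = H.1.map (MulAut.conj g).toMonoidHom := by
          have e2 : Subgroup.zpowers (h : G) = H.1 := (zp_top h).2 hh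
          have e3 : Subgroup.zpowers (c : G) = H.1 := (zp_top c).2 hcg
          conv_rhs => rw [← e2]
          rw [map_conj_zpowers, hg, e3]
        have h3 : (cjE g h2 : MulAut H.1) ∈ Gam H.1 := mem_Gam.2 ⟨g, fun x => rfl⟩
        refine ⟨⟨_, (Gam H.1).inv_mem h3⟩, Finset.mem_coe.2 (Finset.mem_univ _), ?_⟩
        apply Subtype.ext
        show g * (h : G) * g⁻¹ = c
        exact hg
      rw [h1, Int.cast_zero, mul_zero]
    · rw [hz c hcg, zero_mul]
  · intro σ _
    obtain ⟨g, hg⟩ := mem_Gam.1 ((Gam H.1).inv_mem σ.2)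
    have h1 : cind (h : G) (((σ : MulAut H.1).symm h : H.1) : G) = 1 := by
      unfold cind
      rw [if_pos]
      exact isConj_iff.2 ⟨g, (hg h).symm⟩
    show _ = _ * ((cind (h : G) (((σ : MulAut H.1).symm h : H.1) : G) : ℤ) : R)
    rw [h1, Int.cast_one, mul_one]

theorem TC_other (H K : FinSub G) (hK : IsCyclic K.1)
    (hne : ¬ ∃ g : G, K.1 = H.1.map (MulAut.conj g).toMonoidHom) {z : K0 (MonoidAlgebra R K.1)}
    (hz : z ∈ Sup R K.1) (h : H.1) (hh : Subgroup.zpowers h = ⊤) :
    TC R (cind (h : G)) (ci K z) = 0 := by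
  classical
  have := K.2
  have hC := comm_of_cyclic hK
  let _ := Fintype.ofFinite K.1
  rw [TC_ci (cind_cls _), T_sum_comm hC]
  refine Finset.sum_eq_zero fun c _ => ?_
  by_cases hcg : Subgroup.zpowers c = ⊤
  · have h1 : cind (h : G) (c : G) = 0 := by
      unfold cind
      rw [if_neg]
      intro hconj
      obtain ⟨g, hg⟩ := isConj_iff.1 hconj
      apply hne
      refine ⟨g, ?_⟩
      rw [← (zp_top h).2 hh, map_conj_zpowers, hg, (zp_top c).2 hcg]
    rw [h1, Int.cast_zero, mul_zero]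
  · rw [hz c hcg, zero_mul]

variable (R G) in
/-- the families in normal form -/
def NF (m : ℕ) : AddSubgroup (Π₀ H : FinSub G, K0 (MonoidAlgebra R H.1)) where
  carrier := {f | ∀ H : FinSub G, (rp H ≠ H → f H = 0) ∧
    (¬ (IsCyclic H.1 ∧ Nat.card H.1 ∣ m) → f H = 0) ∧ f H ∈ Sup R H.1}
  zero_mem' := fun H => ⟨fun _ => rfl, fun _ => rfl, AddSubgroup.zero_mem _⟩
  add_mem' := fun {f g} hf hg H => ⟨fun h => by
      rw [DFinsupp.add_apply, (hf H).1 h, (hg H).1 h, add_zero],
    fun h => by rw [DFinsupp.add_apply, (hf H).2.1 h, (hg H).2.1 h, add_zero],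
    by rw [DFinsupp.add_apply]; exact AddSubgroup.add_mem _ (hf H).2.2 (hg H).2.2⟩
  neg_mem' := fun {f} hf H => ⟨fun h => by rw [DFinsupp.neg_apply, (hf H).1 h, neg_zero],
    fun h => by rw [DFinsupp.neg_apply, (hf H).2.1 h, neg_zero],
    by rw [DFinsupp.neg_apply]; exact AddSubgroup.neg_mem _ (hf H).2.2⟩

open Classical in
variable (R G) in
/-- the sum of a family -/
def Sg : (Π₀ H : FinSub G, K0 (MonoidAlgebra R H.1)) →+ ColK R G :=
  DFinsupp.sumAddHom fun H => ci H

open Classical in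
theorem Sg_single (H : FinSub G) (z : K0 (MonoidAlgebra R H.1)) :
    Sg R G (DFinsupp.single (β := fun H : FinSub G => K0 (MonoidAlgebra R H.1)) H z) = ci H z :=
  DFinsupp.sumAddHom_single _ _ _

open Classical in
theorem Sg_eq (f : Π₀ H : FinSub G, K0 (MonoidAlgebra R H.1)) (s : Finset (FinSub G))
    (hs : f.support ⊆ s) : Sg R G f = ∑ H ∈ s, ci H (f H) := by
  unfold Sg
  rw [DFinsupp.sumAddHom_apply, DFinsupp.sum]
  refine Finset.sum_subset hs ?_
  intro H _ hH
  rw [DFinsupp.notMem_support_iff.1 hH, map_zero]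

variable (R G) in
/-- the elements induced from supported elements -/
def QQ (m : ℕ) : AddSubgroup (ColK R G) :=
  AddSubgroup.closure {y | ∃ (C : FinSub G) (_ : IsCyclic C.1) (_ : Nat.card C.1 ∣ m)
    (z : K0 (MonoidAlgebra R C.1)), z ∈ Sup R C.1 ∧ y = ci C z}

theorem nf_exists (m : ℕ) {y : ColK R G} (hy : y ∈ QQ R G m) :
    ∃ f ∈ NF R G m, Sg R G f = y := by
  classical
  unfold QQ at hy
  induction hy using AddSubgroup.closure_induction with
  | mem y hy =>
    obtain ⟨C, hC, hm, z, hz, rfl⟩ := hy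
    obtain ⟨g, hg⟩ := rp_conj C
    refine ⟨DFinsupp.single (β := fun H : FinSub G => K0 (MonoidAlgebra R H.1)) (rp C)
      (K0.map (mapDomainRingHom R (cjE g hg).toMonoidHom) z), ?_, ?_⟩
    · intro H
      by_cases hH : H = rp C
      · subst hH
        refine ⟨fun h => absurd (rp_rp C) h, fun h => ?_, ?_⟩
        · exfalso
          apply h
          refine ⟨isCyclic_of_surjective (cjE g hg) (cjE g hg).surjective, ?_⟩
          rwa [← Nat.card_congr (cjE g hg).toEquiv]
        · rw [DFinsupp.single_eq_same]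
          exact sup_equiv _ hz
      · rw [DFinsupp.single_eq_of_ne hH]
        exact ⟨fun _ => rfl, fun _ => rfl, AddSubgroup.zero_mem _⟩
    · rw [Sg_single]
      exact ci_rel C (rp C) g _ (fun h => rfl) z
  | zero => exact ⟨0, AddSubgroup.zero_mem _, map_zero _⟩
  | add x y _ _ hx hy =>
    obtain ⟨f, hf, rfl⟩ := hx
    obtain ⟨f', hf', rfl⟩ := hy
    exact ⟨f + f', AddSubgroup.add_mem _ hf hf', map_add _ _ _⟩
  | neg x _ hx =>
    obtain ⟨f, hf, rfl⟩ := hx
    exact ⟨-f, AddSubgroup.neg_mem _ hf, map_neg _ _⟩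

theorem TC_Sg {m : ℕ} {f : Π₀ H : FinSub G, K0 (MonoidAlgebra R H.1)} (hf : f ∈ NF R G m)
    (H : FinSub G) (hr : rp H = H) (hH : IsCyclic H.1) (h : H.1)
    (hh : Subgroup.zpowers h = ⊤) :
    TC R (cind (h : G)) (Sg R G f) = T R (cind h) (av R H (f H)) := by
  classical
  rw [Sg_eq f (insert H f.support) (Finset.subset_insert _ _), map_sum,
    Finset.sum_eq_single H]
  · exact TC_gen H hH (hf H).2.2 h hh
  · intro K _ hKH
    by_cases hK : f K = 0
    · rw [hK, map_zero, map_zero]
    · have h1 : rp K = K := by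
        by_contra h1
        exact hK ((hf K).1 h1)
      have h2 : IsCyclic K.1 := by
        by_contra h2
        exact hK ((hf K).2.1 fun h3 => h2 h3.1)
      apply TC_other H K h2 _ (hf K).2.2 h hh
      intro h3
      apply hKH
      rw [← h1, ← hr]
      exact (rp_eq h3).symm
  · intro h1
    exact absurd (Finset.mem_insert_self _ _) h1

/-- **Normal form.** -/
theorem normal_form (m w : ℕ) (hw : ∀ H : FinSub G, IsCyclic H.1 → Nat.card H.1 ∣ m →
    Nat.card (Gam H.1) ∣ w) {y : ColK R G} (hy : y ∈ QQ R G m) :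
    ∃ (s : Finset (FinSub G)) (U : ∀ H : FinSub G, K0 (MonoidAlgebra R H.1)),
      (∀ H ∈ s, rp H = H ∧ IsCyclic H.1 ∧ Nat.card H.1 ∣ m) ∧
      (∀ H, H ∉ s → U H = 0) ∧ (∀ H, U H ∈ Sup R H.1) ∧
      (∀ H : FinSub G, rp H = H → IsCyclic H.1 → ∀ h : H.1, Subgroup.zpowers h = ⊤ →
        T R (cind h) (U H) = TC R (cind (h : G)) y) ∧
      (y = 0 → s = ∅) ∧
      w • y = ∑ H ∈ s, (w / Nat.card (Gam H.1)) • ci H (U H) := by
  classical
  by_cases hy0 : y = 0
  · refine ⟨∅, fun _ => 0, by simp, fun _ _ => rfl, fun _ => AddSubgroup.zero_mem _, ?_,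
      fun _ => rfl, ?_⟩
    · intro H _ _ h _
      rw [hy0, map_zero, map_zero]
    · rw [hy0, smul_zero, Finset.sum_empty]
  · obtain ⟨f, hf, rfl⟩ := nf_exists m hy
    refine ⟨f.support, fun H => av R H (f H), ?_, ?_, fun H => av_sup H (hf H).2.2, ?_,
      fun h => absurd h hy0, ?_⟩
    · intro H hH
      rw [DFinsupp.mem_support_iff] at hH
      refine ⟨?_, ?_⟩
      · by_contra h1
        exact hH ((hf H).1 h1)
      · by_contra h1
        exact hH ((hf H).2.1 h1)
    · intro H hH
      show av R H (f H) = 0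
      rw [DFinsupp.notMem_support_iff.1 hH, map_zero]
    · intro H hr hH h hh
      exact (TC_Sg hf H hr hH h hh).symm
    · rw [Sg_eq f _ subset_rfl, Finset.smul_sum]
      refine Finset.sum_congr rfl fun H hH => ?_
      rw [ci_av, smul_smul]
      congr 1
      rw [DFinsupp.mem_support_iff] at hH
      have h2 : IsCyclic H.1 ∧ Nat.card H.1 ∣ m := by
        by_contra h1
        exact hH ((hf H).2.1 h1)
      exact (Nat.div_mul_cancel (hw H h2.1 h2.2)).symm

end nf

end

end Pool.Agent.K3h89.FJ.Exp
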