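import Pool.Agent.K3h89.FJ.ExpB
import Pool.Agent.Y43.NK.Cyc

/-!
# Sums of roots of unity, and elements of `K₀(F[C])` with rational traces at the generators
-/

set_option autoImplicit false

open Matrix

namespace Pool.Agent.K3h89.FJ.Exp

open MonoidAlgebra Pool.Agent.Y69 Pool.Agent.Y778.NK
open UniqueFactorizationMonoid (radical)

noncomputable section

section num

theorem coprime_ind (q k : ℕ) (hq : 0 < q) :
    ∑ d ∈ q.divisors.filter (fun d => d ∣ k), ArithmeticFunction.moebius d =
      if Nat.Coprime k q then 1 else 0 := by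
  have h1 : q.divisors.filter (fun d => d ∣ k) = (Nat.gcd k q).divisors := by
    ext d
    simp only [Finset.mem_filter, Nat.mem_divisors, Nat.dvd_gcd_iff]
    constructor
    · rintro ⟨⟨h1, h2⟩, h3⟩
      exact ⟨⟨h3, h1⟩, (Nat.gcd_pos_of_pos_right _ hq).ne'⟩
    · rintro ⟨⟨h1, h2⟩, _⟩
      exact ⟨⟨h2, hq.ne'⟩, h1⟩
  rw [h1, ← ArithmeticFunction.coe_mul_zeta_apply, ArithmeticFunction.moebius_mul_coe_zeta,
    ArithmeticFunction.one_apply]

theorem sum_dvd {A : Type} [AddCommMonoid A] (f : ℕ → A) (q d : ℕ) (hd : d ∣ q) (hq : 0 < q) :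
    ∑ k ∈ Finset.range q, (if d ∣ k then f k else 0) = ∑ j ∈ Finset.range (q / d), f (d * j) := by
  have hd0 : 0 < d := Nat.pos_of_dvd_of_pos hd hq
  rw [← Finset.sum_filter]
  symm
  apply Finset.sum_nbij (fun j => d * j)
  · intro j hj
    rw [Finset.mem_range] at hj
    rw [Finset.mem_filter, Finset.mem_range]
    refine ⟨?_, Dvd.intro _ rfl⟩
    calc d * j < d * (q / d) := (Nat.mul_lt_mul_left hd0).2 hj
      _ = q := Nat.mul_div_cancel' hd
  · intro j _ j' _ h
    exact Nat.eq_of_mul_eq_mul_left hd0 h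
  · intro k hk
    rw [Finset.coe_filter, Set.mem_ofPred_eq, Finset.mem_range] at hk
    obtain ⟨hk, j, rfl⟩ := hk
    refine ⟨j, ?_, rfl⟩
    rw [Finset.coe_range, Set.mem_Iio]
    rw [Nat.lt_div_iff_mul_lt' hd]
    exact hk
  · intro j _
    rfl

theorem geom {S : Type} [Field S] [DecidableEq S] (ζ : S) (n : ℕ) (h : ζ ^ n = 1) :
    ∑ j ∈ Finset.range n, ζ ^ j = if ζ = 1 then (n : S) else 0 := by
  split_ifs with h1
  · rw [h1]; simp
  · rw [geom_sum_eq h1, h, sub_self, zero_div]

theorem ramanujan {S : Type} [Field S] (q : ℕ) (hq : 0 < q) (ζ : S)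
    (hζ : IsPrimitiveRoot ζ (radical q)) :
    ∑ k ∈ Finset.range q, (if Nat.Coprime k q then ζ ^ k else 0) =
      ((ArithmeticFunction.moebius (radical q) : ℤ) : S) * ((q / radical q : ℕ) : S) := by
  classical
  have hr : radical q ∣ q := UniqueFactorizationMonoid.radical_dvd_self
  have hζq : ζ ^ q = 1 := (hζ.pow_eq_one_iff_dvd q).2 hr
  have e1 : ∀ k ∈ Finset.range q, (if Nat.Coprime k q then ζ ^ k else 0) =
      ∑ d ∈ q.divisors, ((ArithmeticFunction.moebius d : ℤ) : S) * (if d ∣ k then ζ ^ k else 0) := by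
    intro k _
    have h1 := congrArg (fun t : ℤ => (t : S)) (coprime_ind q k hq)
    simp only [Int.cast_sum, Int.cast_ite, Int.cast_one, Int.cast_zero] at h1
    have h2 : (if Nat.Coprime k q then ζ ^ k else 0) = (if Nat.Coprime k q then (1 : S) else 0) * ζ ^ k := by
      split_ifs <;> simp
    rw [h2, ← h1, Finset.sum_mul, Finset.sum_filter]
    refine Finset.sum_congr rfl fun d _ => ?_
    split_ifs <;> simp
  rw [Finset.sum_congr rfl e1, Finset.sum_comm]
  have e2 : ∀ d ∈ q.divisors, ∑ k ∈ Finset.range q,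
      ((ArithmeticFunction.moebius d : ℤ) : S) * (if d ∣ k then ζ ^ k else 0) =
      ((ArithmeticFunction.moebius d : ℤ) : S) * (if radical q ∣ d then ((q / d : ℕ) : S) else 0) := by
    intro d hd
    have hdq : d ∣ q := (Nat.mem_divisors.1 hd).1
    rw [← Finset.mul_sum, sum_dvd _ q d hdq hq]
    congr 1
    simp only [pow_mul]
    rw [geom (ζ ^ d) (q / d) (by rw [← pow_mul, Nat.mul_div_cancel' hdq, hζq])]
    simp only [hζ.pow_eq_one_iff_dvd d]
  rw [Finset.sum_congr rfl e2, Finset.sum_eq_single (radical q)]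
  · rw [if_pos dvd_rfl]
  · intro d hd hne
    have hdq : d ∣ q := (Nat.mem_divisors.1 hd).1
    by_cases h1 : radical q ∣ d
    · have h2 : ¬ Squarefree d := by
        intro hs
        apply hne
        exact Nat.dvd_antisymm
          ((UniqueFactorizationMonoid.dvd_radical_iff hs.isRadical hq.ne').2 hdq) h1
      rw [ArithmeticFunction.moebius_eq_zero_of_not_squarefree h2, Int.cast_zero, zero_mul]
    · rw [if_neg h1, mul_zero]
  · intro h
    exact absurd (Nat.mem_divisors.2 ⟨hr, hq.ne'⟩) h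

end num

section char

theorem trace_int {S : Type} [Field S] {n : ℕ} (M : Matrix (Fin n) (Fin n) S) (hM : M * M = M) :
    ∃ k : ℕ, ∑ i, M i i = k := by
  have h : IsIdempotentElem (Matrix.toLin' M) := by
    show (Matrix.toLin' M) ∘ₗ (Matrix.toLin' M) = Matrix.toLin' M
    rw [← Matrix.toLin'_mul, hM]
  have h2 := (LinearMap.IsIdempotentElem.isProj_range _ h).trace
  rw [Matrix.trace_toLin'_eq] at h2
  exact ⟨_, h2⟩

theorem char_sum {F S : Type} [Field F] [Field S] [Algebra F S] {C : Type} [Group C] [Fintype C]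
    (hC : ∀ a b : C, a * b = b * a) (χ : C →* S) (x : K0 (MonoidAlgebra F C)) :
    ∃ k : ℤ, ∑ c, algebraMap F S (T F (cind c) x) * χ c = k := by
  classical
  induction x using K0.induction with
  | hadd x y hx hy =>
    obtain ⟨k, hk⟩ := hx
    obtain ⟨l, hl⟩ := hy
    refine ⟨k + l, ?_⟩
    rw [Int.cast_add, ← hk, ← hl, ← Finset.sum_add_distrib]
    refine Finset.sum_congr rfl fun c _ => ?_
    rw [map_add, map_add, add_mul]
  | hneg x hx =>
    obtain ⟨k, hk⟩ := hx
    refine ⟨-k, ?_⟩
    rw [Int.cast_neg, ← hk, ← Finset.sum_neg_distrib]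
    refine Finset.sum_congr rfl fun c _ => ?_
    rw [map_neg, map_neg, neg_mul]
  | hcl n e he =>
    let ev : MonoidAlgebra F C →+* S := (MonoidAlgebra.lift F S C χ).toRingHom
    obtain ⟨k, hk⟩ := trace_int (e.map ev) (map_idem ev he)
    refine ⟨k, ?_⟩
    rw [Int.cast_natCast, ← hk]
    have h1 : ∀ c, T F (cind c) (cl0 e he) = ∑ i, (e i i).coeff c := by
      intro c
      rw [T_cl0 (cind_cls c)]
      unfold hs
      refine Finset.sum_congr rfl fun i _ => ?_
      rw [Pool.Agent.H23R2.Cyc.ell_eq_sum _ Finset.univ _ (fun g _ => Finset.mem_univ g),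
        Finset.sum_eq_single c]
      · rw [cind_comm hC, if_pos rfl, Int.cast_one, mul_one]
      · intro d _ hd
        rw [cind_comm hC, if_neg hd, Int.cast_zero, mul_zero]
      · intro h; exact absurd (Finset.mem_univ c) h
    have h2 : ∀ a : MonoidAlgebra F C, ev a = ∑ c, algebraMap F S (a.coeff c) * χ c := by
      intro a
      induction a using MonoidAlgebra.induction_linear with
      | zero => simp
      | add a b ha hb =>
        rw [map_add, ha, hb, ← Finset.sum_add_distrib]
        refine Finset.sum_congr rfl fun c _ => ?_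
        rw [coeff_add, Finsupp.add_apply, map_add, add_mul]
      | single g r =>
        rw [Finset.sum_eq_single g]
        · show MonoidAlgebra.lift F S C χ (single g r) = _
          rw [MonoidAlgebra.lift_single, Algebra.smul_def, coeff_single, Finsupp.single_eq_same]
        · intro b _ hb
          rw [coeff_single, Finsupp.single_eq_of_ne hb, map_zero, zero_mul]
        · intro h; exact absurd (Finset.mem_univ _) h
    have h3 : ∀ c, algebraMap F S (T F (cind c) (cl0 e he)) * χ c =
        ∑ i, algebraMap F S ((e i i).coeff c) * χ c := by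
      intro c
      rw [h1, map_sum, Finset.sum_mul]
    rw [Finset.sum_congr rfl fun c _ => h3 c, Finset.sum_comm]
    refine Finset.sum_congr rfl fun i _ => ?_
    rw [Matrix.map_apply, h2]

theorem zp_pow_top {C : Type} [Group C] [Finite C] {g : C} (hg : ∀ x : C, x ∈ Subgroup.zpowers g)
    (k : ℕ) : Subgroup.zpowers (g ^ k) = ⊤ ↔ Nat.Coprime k (Nat.card C) := by
  have h1 : orderOf g = Nat.card C := orderOf_eq_card_of_forall_mem_zpowers hg
  constructor
  · intro h
    have h2 : orderOf (g ^ k) = Nat.card C := by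
      rw [← Nat.card_zpowers, h, Subgroup.card_top]
    rw [← h1] at h2 ⊢
    rw [orderOf_pow] at h2
    have h3 : 0 < orderOf g := orderOf_pos g
    have h4 : Nat.gcd (orderOf g) k ∣ orderOf g := Nat.gcd_dvd_left _ _
    have h5 : Nat.gcd (orderOf g) k = 1 := by
      have h6 : orderOf g / Nat.gcd (orderOf g) k * Nat.gcd (orderOf g) k = orderOf g :=
        Nat.div_mul_cancel h4
      rw [h2] at h6
      exact Nat.eq_of_mul_eq_mul_left h3 (by rw [h6, mul_one])
    rw [Nat.coprime_comm]
    exact h5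
  · intro h
    rw [← h1] at h
    have h2 : orderOf (g ^ k) = Nat.card C := by
      rw [Nat.Coprime.orderOf_pow h.symm, h1]
    apply Subgroup.eq_top_of_card_eq
    rw [Nat.card_zpowers, h2]

/-- integrality -/
theorem integ {F : Type} [Field F] [CharZero F] {C : Type} [Group C] [Finite C]
    (hC : IsCyclic C) {u : K0 (MonoidAlgebra F C)} (hu : u ∈ Sup F C) (θ : ℚ →+* F) (a : ℚ)
    (ha : ∀ c : C, Subgroup.zpowers c = ⊤ → T F (cind c) u = θ a) :
    ∃ k : ℤ, a * ((Nat.card C / radical (Nat.card C) : ℕ) : ℚ) = k := by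
  classical
  let _ := Fintype.ofFinite C
  have hcomm := comm_of_cyclic hC
  obtain ⟨g, hg⟩ := hC.exists_generator
  have hord : orderOf g = Nat.card C := orderOf_eq_card_of_forall_mem_zpowers hg
  have hq : 0 < Nat.card C := Nat.card_pos
  let S : Type := AlgebraicClosure F
  have hcz : CharZero S := charZero_of_injective_algebraMap (algebraMap F S).injective
  have hrad : radical (Nat.card C) ≠ 0 := UniqueFactorizationMonoid.radical_ne_zero
  have : NeZero ((radical (Nat.card C) : ℕ) : F) := ⟨by exact_mod_cast hrad⟩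
  obtain ⟨ζ, hζ⟩ := HasEnoughRootsOfUnity.exists_primitiveRoot S (radical (Nat.card C))
  obtain ⟨ζu, rfl⟩ := hζ.isUnit hrad
  have hζo : orderOf ζu ∣ orderOf g := by
    rw [hord, ← orderOf_units, ← hζ.eq_orderOf]
    exact UniqueFactorizationMonoid.radical_dvd_self
  let χ : C →* S := (Units.coeHom S).comp (monoidHomOfForallMemZpowers hg hζo)
  have hχ : ∀ k : ℕ, χ (g ^ k) = (ζu : S) ^ k := by
    intro k
    rw [map_pow]
    congr 1
    show ((monoidHomOfForallMemZpowers hg hζo g : Sˣ) : S) = _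
    rw [monoidHomOfForallMemZpowers_apply_gen]
  obtain ⟨k, hk⟩ := char_sum (S := S) hcomm χ u
  have h1 : ∑ c, algebraMap F S (T F (cind c) u) * χ c =
      ∑ k ∈ Finset.range (Nat.card C), algebraMap F S (θ a) *
        (if Nat.Coprime k (Nat.card C) then (ζu : S) ^ k else 0) := by
    rw [← IsCyclic.image_range_card hg, Finset.sum_image]
    · refine Finset.sum_congr rfl fun k _ => ?_
      rw [hχ]
      by_cases h : Nat.Coprime k (Nat.card C)
      · rw [if_pos h, ha _ ((zp_pow_top hg k).2 h)]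
      · rw [if_neg h, mul_zero, hu _ fun h' => h ((zp_pow_top hg k).1 h'), map_zero, zero_mul]
    · intro i hi j hj hij
      rw [Finset.coe_range, Set.mem_Iio, ← hord] at hi hj
      exact pow_injOn_Iio_orderOf hi hj hij
  rw [h1, ← Finset.mul_sum, ramanujan (Nat.card C) hq (ζu : S) hζ] at hk
  have h2 : ((algebraMap F S).comp θ) (a * ((ArithmeticFunction.moebius (radical (Nat.card C)) : ℤ) *
      ((Nat.card C / radical (Nat.card C) : ℕ) : ℚ))) = ((algebraMap F S).comp θ) (k : ℚ) := by
    rw [map_mul, map_mul, map_intCast, map_natCast, map_intCast]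
    exact hk
  have h3 := ((algebraMap F S).comp θ).injective h2
  have h4 : ArithmeticFunction.moebius (radical (Nat.card C)) ^ 2 = 1 :=
    ArithmeticFunction.moebius_sq_eq_one_of_squarefree
      UniqueFactorizationMonoid.squarefree_radical
  have h5 : ((ArithmeticFunction.moebius (radical (Nat.card C)) : ℤ) : ℚ) ^ 2 = 1 := by
    exact_mod_cast h4
  refine ⟨ArithmeticFunction.moebius (radical (Nat.card C)) * k, ?_⟩
  rw [Int.cast_mul, ← h3]
  linear_combination (-(a * ((Nat.card C / radical (Nat.card C) : ℕ) : ℚ))) * h5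

end char

section theta

theorem exists_frat {C : Type} [Group C] [Finite C] (hC : IsCyclic C) :
    ∃ Φ : Subgroup C, Nat.card Φ = Nat.card C / radical (Nat.card C) ∧
      ∀ c : C, Subgroup.zpowers c ⊔ Φ = ⊤ → Subgroup.zpowers c = ⊤ := by
  obtain ⟨g, hg⟩ := hC.exists_generator
  have hord : orderOf g = Nat.card C := orderOf_eq_card_of_forall_mem_zpowers hg
  have hq : 0 < Nat.card C := Nat.card_pos
  refine ⟨Subgroup.zpowers (g ^ radical (Nat.card C)), ?_, ?_⟩
  · rw [Nat.card_zpowers, orderOf_pow, hord,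
      Nat.gcd_eq_right UniqueFactorizationMonoid.radical_dvd_self]
  · intro c hc
    obtain ⟨k, rfl⟩ : ∃ k : ℕ, g ^ k = c := by
      have h1 : c ∈ Submonoid.powers g := mem_powers_iff_mem_zpowers.2 (hg c)
      exact h1
    rw [zp_pow_top hg]
    by_contra hcop
    obtain ⟨p, hp, hpk, hpq⟩ := Nat.Prime.not_coprime_iff_dvd.1 hcop
    have hpr : p ∣ radical (Nat.card C) :=
      (UniqueFactorizationMonoid.dvd_radical_iff hp.prime.isRadical hq.ne').2 hpq
    have h2 : ∀ j : ℕ, p ∣ j → g ^ j ∈ Subgroup.zpowers (g ^ p) := by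
      rintro j ⟨i, rfl⟩
      rw [pow_mul]
      exact Subgroup.pow_mem _ (Subgroup.mem_zpowers _) i
    have h3 : Subgroup.zpowers (g ^ k) ⊔ Subgroup.zpowers (g ^ radical (Nat.card C)) ≤
        Subgroup.zpowers (g ^ p) :=
      sup_le ((Subgroup.zpowers_le).2 (h2 k hpk)) ((Subgroup.zpowers_le).2 (h2 _ hpr))
    rw [hc, top_le_iff, zp_pow_top hg] at h3
    have h4 := Nat.Coprime.eq_one_of_dvd h3 hpq
    exact hp.one_lt.ne' h4

variable {G : Type} [Group G]

open Classical in
theorem theta_rec (Φ : Subgroup G) [Finite Φ] (E : FinSub G) (hΦ : Φ ≤ E.1)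
    (hE : ∀ a b : E.1, a * b = b * a) :
    ∃ θ : K0 (MonoidAlgebra ℚ E.1), ci E θ ∈ AvgSpan G ∧
      ∀ c : E.1, T ℚ (cind c) θ =
        if Subgroup.zpowers (c : G) ⊔ Φ = E.1 then ((Nat.card Φ : ℚ))⁻¹ else 0 := by
  induction hn : Nat.card E.1 using Nat.strong_induction_on generalizing E with
  | _ n ih =>
    have hfE : Finite E.1 := E.2
    let _ := Fintype.ofFinite E.1
    have hS : ∀ K, K ∈ (Y43.NK.finite_lt E.1).toFinset ↔ K < E.1 := by
      intro K
      rw [Set.Finite.mem_toFinset]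
      rfl
    generalize (Y43.NK.finite_lt E.1).toFinset = S at hS
    have hK : ∀ K : {K // K ∈ S.filter fun K => Φ ≤ K}, ∃ (v : K0 (MonoidAlgebra ℚ K.1))
        (hle : K.1 ≤ E.1), ci E (K0.map (mapDomainRingHom ℚ (Subgroup.inclusion hle)) v) ∈
          AvgSpan G ∧ ∀ c : K.1, T ℚ (cind c) v =
          if Subgroup.zpowers (c : G) ⊔ Φ = K.1 then ((Nat.card Φ : ℚ))⁻¹ else 0 := by
      rintro ⟨K, hK⟩
      rw [Finset.mem_filter] at hK
      have hlt := (hS K).1 hK.1
      have hfin : Finite K := Finite.Set.subset (E.1 : Set G) hlt.le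
      have hcard : Nat.card K < n := by
        rw [← hn]
        exact Set.ncard_lt_ncard (SetLike.coe_ssubset_coe.2 hlt) (Set.toFinite _)
      have hcomm : ∀ a b : K, a * b = b * a := fun a b => by
        have h1 := congrArg (Subtype.val : E.1 → G)
          (hE (Subgroup.inclusion hlt.le a) (Subgroup.inclusion hlt.le b))
        have h2 : (a : G) * b = b * a := h1
        exact Subtype.ext h2
      obtain ⟨v, hv, hv2⟩ := ih (Nat.card K) hcard ⟨K, hfin⟩ hK.2 hcomm rfl
      refine ⟨v, hlt.le, ?_, hv2⟩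
      have h3 := ci_rel (R := ℚ) (⟨K, hfin⟩ : FinSub G) E 1 (Subgroup.inclusion hlt.le)
        (fun y => by
          show (y : G) = 1 * (y : G) * 1⁻¹
          group) v
      rw [h3]
      exact hv
    choose v hle hv hv2 using hK
    have hdvd : Nat.card Φ ∣ Nat.card E.1 := Subgroup.card_dvd_of_le hΦ
    have hΦ0 : ((Nat.card Φ : ℕ) : ℚ) ≠ 0 := by exact_mod_cast Nat.card_pos.ne'
    have hE0 : ((Nat.card E.1 : ℕ) : ℚ) ≠ 0 := by exact_mod_cast Nat.card_pos.ne'
    refine ⟨(Nat.card E.1 / Nat.card Φ) • avgCl E.1 -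
      ∑ K, K0.map (mapDomainRingHom ℚ (Subgroup.inclusion (hle K))) (v K), ?_, ?_⟩
    · rw [map_sub, map_nsmul, map_sum]
      apply AddSubgroup.sub_mem
      · apply AddSubgroup.nsmul_mem
        exact AddSubgroup.subset_closure ⟨E, rfl⟩
      · exact AddSubgroup.sum_mem _ fun K _ => hv K
    · intro c
      rw [map_sub, map_nsmul, map_sum]
      have h1 : T ℚ (cind c) (avgCl E.1) = ((Nat.card E.1 : ℕ) : ℚ)⁻¹ := by
        rw [Y43.NK.T_avg E.1 (cind c) (cind_cls c), Finset.sum_eq_single c]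
        · rw [cind_comm hE, if_pos rfl, Int.cast_one, mul_one]
        · intro b _ hb
          rw [cind_comm hE, if_neg hb, Int.cast_zero]
        · intro h; exact absurd (Finset.mem_univ _) h
      have h2 : ∀ K, T ℚ (cind c) (K0.map (mapDomainRingHom ℚ (Subgroup.inclusion (hle K))) (v K)) =
          if Subgroup.zpowers (c : G) ⊔ Φ = K.1 then ((Nat.card Φ : ℚ))⁻¹ else 0 := by
        intro K
        rw [T_incl hE]
        by_cases hc : (c : G) ∈ K.1
        · rw [dif_pos hc, hv2]
        · rw [dif_neg hc, if_neg]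
          intro h
          exact hc (h ▸ Subgroup.mem_sup_left (Subgroup.mem_zpowers _))
      rw [h1, Finset.sum_congr rfl fun K _ => h2 K, nsmul_eq_mul, Nat.cast_div hdvd hΦ0]
      have h3 : ((Nat.card E.1 : ℕ) : ℚ) / (Nat.card Φ : ℕ) * ((Nat.card E.1 : ℕ) : ℚ)⁻¹ =
          ((Nat.card Φ : ℕ) : ℚ)⁻¹ := by
        field_simp
      rw [h3]
      have hle2 : Subgroup.zpowers (c : G) ⊔ Φ ≤ E.1 := sup_le ((Subgroup.zpowers_le).2 c.2) hΦ
      by_cases h : Subgroup.zpowers (c : G) ⊔ Φ = E.1
      · rw [if_pos h, Finset.sum_eq_zero, sub_zero]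
        intro K _
        rw [if_neg]
        intro h'
        have h4 := (hS K.1).1 (Finset.mem_filter.1 K.2).1
        rw [← h', h] at h4
        exact lt_irrefl _ h4
      · rw [if_neg h, Finset.sum_eq_single ⟨Subgroup.zpowers (c : G) ⊔ Φ, Finset.mem_filter.2
          ⟨(hS _).2 (lt_of_le_of_ne hle2 h), le_sup_right⟩⟩, if_pos rfl, sub_self]
        · intro B _ hB
          rw [if_neg]
          intro h'
          exact hB (Subtype.ext h'.symm)
        · intro h; exact absurd (Finset.mem_univ _) h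

theorem theta (H : FinSub G) (hH : IsCyclic H.1) :
    ∃ θ : K0 (MonoidAlgebra ℚ H.1), ci H θ ∈ AvgSpan G ∧ θ ∈ Sup ℚ H.1 ∧
      ∀ c : H.1, Subgroup.zpowers c = ⊤ →
        T ℚ (cind c) θ = ((Nat.card H.1 / radical (Nat.card H.1) : ℕ) : ℚ)⁻¹ := by
  classical
  have := H.2
  obtain ⟨Φ, h1, h2⟩ := exists_frat hH
  let Φ' : Subgroup G := Φ.map H.1.subtype
  have hfin : Finite Φ' := by
    have : Finite (Φ.map H.1.subtype : Set G) := by
      rw [Subgroup.coe_map]
      infer_instance
    exact this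
  have hle : Φ' ≤ H.1 := by
    rintro _ ⟨x, _, rfl⟩
    exact x.2
  have hcard : Nat.card Φ' = Nat.card Φ :=
    (Nat.card_congr (Φ.equivMapOfInjective H.1.subtype H.1.subtype_injective).toEquiv).symm
  have hsup : ∀ c : H.1, Subgroup.zpowers (c : G) ⊔ Φ' = H.1 ↔ Subgroup.zpowers c = ⊤ := by
    intro c
    have e1 : Subgroup.zpowers (c : G) ⊔ Φ' = (Subgroup.zpowers c ⊔ Φ).map H.1.subtype := by
      rw [Subgroup.map_sup, MonoidHom.map_zpowers]
      rfl
    have e2 : H.1 = (⊤ : Subgroup H.1).map H.1.subtype := by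
      rw [← MonoidHom.range_eq_map, Subgroup.range_subtype]
    constructor
    · intro h
      apply h2
      apply Subgroup.map_injective H.1.subtype_injective
      rw [← e1, ← e2, h]
    · intro h
      rw [e1, h, top_sup_eq, ← e2]
  obtain ⟨θ, h3, h4⟩ := theta_rec Φ' H hle (comm_of_cyclic hH)
  refine ⟨θ, h3, ?_, ?_⟩
  · intro c hc
    rw [h4, if_neg]
    rwa [hsup]
  · intro c hc
    rw [h4, if_pos ((hsup c).2 hc), hcard, h1]

end theta

end

end Pool.Agent.K3h89.FJ.Exp
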