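import Pool.Agent.K3h89.FJ.ExpC
import Pool.Agent.Y778.NK.Final

/-!
# The exponent of the kernel of the assembly map in degree `-1`
-/

set_option autoImplicit false

open Matrix

namespace Pool.Agent.K3h89.FJ.Exp

open MonoidAlgebra Pool.Agent.Y69 Pool.Agent.Y778.NK
open UniqueFactorizationMonoid (radical)

noncomputable section

theorem tors_cyc (hT : S_Tors) {F : Type} [Field F] [CharZero F] {C : Type} [Group C] [Finite C]
    (hC : IsCyclic C) (u : K0 (MonoidAlgebra F C)) (h : ∀ c : C, T F (cind c) u = 0) : u = 0 := by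
  let _ := Fintype.ofFinite C
  let i : CommGroup C := IsCyclic.commGroup
  apply @hT F _ _ C i _ u
  intro f
  have h1 := T_sum_comm (comm_of_cyclic hC) f u
  refine Eq.trans h1 ?_
  refine Finset.sum_eq_zero fun c _ => ?_
  rw [h c, zero_mul]

theorem sup_zero (hT : S_Tors) {F : Type} [Field F] [CharZero F] {C : Type} [Group C] [Finite C]
    (hC : IsCyclic C) {u : K0 (MonoidAlgebra F C)} (hu : u ∈ Sup F C)
    (h : ∀ c : C, Subgroup.zpowers c = ⊤ → T F (cind c) u = 0) : u = 0 := by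
  apply tors_cyc hT hC
  intro c
  by_cases hc : Subgroup.zpowers c = ⊤
  · exact h c hc
  · exact hu c hc

variable {P : Set Nat.Primes} {G : Type} [Group G]

theorem th_zero (hI : S_Int) (hG : S_Gen) (p : P) (C : FinSub G) (hC : IsCyclic C.1)
    (hp : ¬ ((p : Nat.Primes) : ℕ) ∣ Nat.card C.1)
    (z : K0 (MonoidAlgebra ℚ_[((p : Nat.Primes) : ℕ)] C.1)) : th p (ci C z) = 0 := by
  have := C.2
  let i : CommGroup C.1 := IsCyclic.commGroup
  obtain ⟨w, hw⟩ := @int_surj ((p : Nat.Primes) : ℕ) _ hI hG C.1 i _ hp z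
  have h1 : ci C z = cc PadicInt.Coe.ringHom (ci C w) := by
    rw [cc_ci]
    exact congrArg (ci C) hw.symm
  rw [h1, th_zp]

/-- elements of the finite subgroups -/
theorem ci_QQ {R : Type} [CommRing R] (hR : ∀ n : ℕ, 0 < n → IsUnit (n : R)) (m : ℕ)
    (H : FinSub G) (hH : Nat.card H.1 ∣ m) (b : K0 (MonoidAlgebra R H.1)) :
    m • ci H b ∈ QQ R G m := by
  have := H.2
  obtain ⟨l, rfl⟩ := hH
  have h5 : (Nat.card H.1 * l) • ci H b = l • ci H (Nat.card H.1 • b) := by
    rw [map_nsmul, ← mul_smul, mul_comm]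
  rw [h5]
  apply AddSubgroup.nsmul_mem
  have h1 := artin_gen hR b
  have h2 : Nat.card H.1 • b ∈ (QQ R G (Nat.card H.1 * l)).comap (ci H) := by
    refine (AddSubgroup.closure_le _).2 ?_ h1
    rintro _ ⟨C, hC, z, hz, rfl⟩
    show ci H (K0.map _ z) ∈ QQ R G _
    let C' : Subgroup G := C.map H.1.subtype
    let φ : C ≃* C' := C.equivMapOfInjective H.1.subtype H.1.subtype_injective
    have hfin : Finite C' := Finite.of_surjective φ φ.surjective
    have hle : C' ≤ H.1 := by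
      rintro _ ⟨x, _, rfl⟩
      exact x.2
    have h3 := ci_rel (R := R) (⟨C', hfin⟩ : FinSub G) H 1 (Subgroup.inclusion hle)
      (fun y => by
        show (y : G) = 1 * (y : G) * 1⁻¹
        group) (K0.map (mapDomainRingHom R φ.toMonoidHom) z)
    have h4 : ci H (K0.map (mapDomainRingHom R C.subtype) z) =
        ci (⟨C', hfin⟩ : FinSub G) (K0.map (mapDomainRingHom R φ.toMonoidHom) z) := by
      rw [← h3, K0map_comp, mapDomainRingHom_comp']
      rfl
    rw [h4]
    refine AddSubgroup.subset_closure ⟨⟨C', hfin⟩,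
      isCyclic_of_surjective φ φ.surjective, ?_, _, sup_equiv φ hz, rfl⟩
    show Nat.card C' ∣ _
    rw [← Nat.card_congr φ.toEquiv]
    exact (Subgroup.card_subgroup_dvd_card C).trans (Dvd.intro _ rfl)
  exact h2

theorem lift_QQ (m : ℕ) (x : ColKM P G) (hx : x ∈ AddSubgroup.closure
    {z : ColKM P G | ∃ H : FinSub G, Nat.card H.1 ∣ m ∧ ∃ y : KM P H.1, z = ik H y}) :
    ∃ ξ, Th P G ξ = x ∧ ∀ p : P, m • ξ p ∈ QQ ℚ_[((p : Nat.Primes) : ℕ)] G m := by
  classical
  have hR : ∀ (p : P) (n : ℕ), 0 < n → IsUnit (n : ℚ_[((p : Nat.Primes) : ℕ)]) :=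
    fun p n hn => isUnit_iff_ne_zero.2 (by exact_mod_cast hn.ne')
  induction hx using AddSubgroup.closure_induction with
  | mem x hx =>
    obtain ⟨H, hH, y, rfl⟩ := hx
    obtain ⟨z, rfl⟩ := km_surj y
    induction z using DFinsupp.induction with
    | h0 =>
      refine ⟨0, by rw [map_zero, map_zero, map_zero], fun p => ?_⟩
      rw [DFinsupp.zero_apply, smul_zero]
      exact AddSubgroup.zero_mem _
    | ha p b f _ _ ih =>
      obtain ⟨ξ, hξ, hξ2⟩ := ih
      refine ⟨DFinsupp.single (β := LC P G) p (ci H b) + ξ, ?_, fun q => ?_⟩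
      · rw [map_add, map_add, map_add, hξ, Th_single, th_ci]
      · rw [DFinsupp.add_apply, smul_add]
        refine AddSubgroup.add_mem _ ?_ (hξ2 q)
        by_cases hq : q = p
        · subst hq
          rw [DFinsupp.single_eq_same]
          exact ci_QQ (hR q) m H hH b
        · rw [DFinsupp.single_eq_of_ne hq, smul_zero]
          exact AddSubgroup.zero_mem _
  | zero =>
    refine ⟨0, map_zero _, fun p => ?_⟩
    rw [DFinsupp.zero_apply, smul_zero]
    exact AddSubgroup.zero_mem _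
  | add x y _ _ hx hy =>
    obtain ⟨ξ, rfl, h1⟩ := hx
    obtain ⟨η, rfl, h2⟩ := hy
    refine ⟨ξ + η, map_add _ _ _, fun p => ?_⟩
    rw [DFinsupp.add_apply, smul_add]
    exact AddSubgroup.add_mem _ (h1 p) (h2 p)
  | neg x _ hx =>
    obtain ⟨ξ, rfl, h1⟩ := hx
    refine ⟨-ξ, map_neg _ _, fun p => ?_⟩
    rw [DFinsupp.neg_apply, smul_neg]
    exact AddSubgroup.neg_mem _ (h1 p)

/-- the local traces at a generator -/
theorem local_trace (p : P) (n m : ℕ) (hn : 0 < n) (ξ : ColK ℚ_[((p : Nat.Primes) : ℕ)] G)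
    (b : K0 (MonoidAlgebra ℚ G)) (a : K0 (MonoidAlgebra ℤ_[((p : Nat.Primes) : ℕ)] G))
    (h : n • asm _ G ξ = fromQ p G b + fromZp p G a) (g : G) (h0 : 0 < orderOf g)
    (hpg : ((p : Nat.Primes) : ℕ) ∣ orderOf g) :
    TC ℚ_[((p : Nat.Primes) : ℕ)] (cind g) (m • ξ) =
      algebraMap ℚ ℚ_[((p : Nat.Primes) : ℕ)] ((m : ℚ) / n * T ℚ (cind g) b) := by
  have h1 : (n : ℚ_[((p : Nat.Primes) : ℕ)]) * TC ℚ_[((p : Nat.Primes) : ℕ)] (cind g) ξ =
      algebraMap ℚ ℚ_[((p : Nat.Primes) : ℕ)] (T ℚ (cind g) b) := by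
    have h2 := congrArg (T ℚ_[((p : Nat.Primes) : ℕ)] (cind g)) h
    rw [map_nsmul, map_add] at h2
    unfold fromQ fromZp at h2
    rw [T_coef, T_coef, sing ((p : Nat.Primes) : ℕ) G a g h0 hpg, map_zero, add_zero,
      nsmul_eq_mul] at h2
    exact h2
  have hn0 : (n : ℚ_[((p : Nat.Primes) : ℕ)]) ≠ 0 := by exact_mod_cast hn.ne'
  have h3 : TC ℚ_[((p : Nat.Primes) : ℕ)] (cind g) ξ =
      (n : ℚ_[((p : Nat.Primes) : ℕ)])⁻¹ * algebraMap ℚ ℚ_[((p : Nat.Primes) : ℕ)] (T ℚ (cind g) b) := by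
    rw [← h1, inv_mul_cancel_left₀ hn0]
  rw [map_nsmul, nsmul_eq_mul, h3, map_mul, map_div₀, map_natCast, map_natCast, div_eq_mul_inv,
    mul_assoc]

/-- traces of rational classes at the generators of a finite cyclic subgroup agree -/
theorem pow_gen (hP : S_Pow) (b : K0 (MonoidAlgebra ℚ G)) (H : FinSub G) (h h' : H.1)
    (hh : Subgroup.zpowers h = ⊤) (hh' : Subgroup.zpowers h' = ⊤) :
    T ℚ (cind (h' : G)) b = T ℚ (cind (h : G)) b := by
  have := H.2
  have hg : ∀ x : H.1, x ∈ Subgroup.zpowers h := fun x => hh ▸ Subgroup.mem_top x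
  obtain ⟨k, rfl⟩ : ∃ k : ℕ, h ^ k = h' := by
    have h1 : h' ∈ Submonoid.powers h := mem_powers_iff_mem_zpowers.2 (hg h')
    exact h1
  have h2 := (zp_pow_top hg k).1 hh'
  have h3 : orderOf (h : G) = Nat.card H.1 := by
    rw [Subgroup.orderOf_coe]
    exact orderOf_eq_card_of_forall_mem_zpowers hg
  have h4 := hP G b (h : G) k (by rw [h3]; exact Nat.card_pos) (by rw [h3]; exact h2)
  exact h4

/-- **The exponent of the kernel.** -/
theorem main_exp (hT : S_Tors) (hI : S_Int) (hG : S_Gen) (hP : S_Pow) (m w : ℕ)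
    (hw : ∀ H : FinSub G, IsCyclic H.1 → Nat.card H.1 ∣ m → Nat.card (Gam H.1) ∣ w)
    (x : ColKM P G) (hx : x ∈ AddSubgroup.closure
      {z : ColKM P G | ∃ H : FinSub G, Nat.card H.1 ∣ m ∧ ∃ y : KM P H.1, z = ik H y})
    (n : ℕ) (hn : 0 < n) (h0 : n • asKM P G x = 0) : (m * w) • x = 0 := by
  classical
  obtain ⟨ξ, rfl, hξ⟩ := lift_QQ m x hx
  rw [asKM_Th, ← map_nsmul, km_zero_iff] at h0
  obtain ⟨b, hb⟩ := h0
  choose a ha using hb
  have hba : ∀ p : P, n • asm _ G (ξ p) = fromQ p G b + fromZp p G (a p) := by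
    intro p
    rw [← ha p]
    rfl
  choose s U hs hs0 hSup hTr hs1 hsum using fun p : P => normal_form m w hw (hξ p)
  choose θ hθ1 hθ2 hθ3 using fun (H : FinSub G) (hH : IsCyclic H.1) => theta H hH
  -- the common integers
  have hk : ∀ H : FinSub G, ∃ k : ℤ, ∀ (hH : IsCyclic H.1), rp H = H → ∀ p : P,
      ((p : Nat.Primes) : ℕ) ∣ Nat.card H.1 → U p H = k • fromQ p H.1 (θ H hH) := by
    intro H
    by_cases hex : IsCyclic H.1 ∧ rp H = H ∧ ∃ p : P, ((p : Nat.Primes) : ℕ) ∣ Nat.card H.1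
    · obtain ⟨hH, hr, p₀, hp₀⟩ := hex
      have hfin := H.2
      obtain ⟨g, hg⟩ := hH.exists_generator
      have hgt : Subgroup.zpowers g = ⊤ := Subgroup.eq_top_iff' _ |>.2 hg
      set β : ℚ := (m : ℚ) / n * T ℚ (cind (g : G)) b with hβ
      have htr : ∀ p : P, ((p : Nat.Primes) : ℕ) ∣ Nat.card H.1 → ∀ c : H.1,
          Subgroup.zpowers c = ⊤ → T _ (cind c) (U p H) =
            algebraMap ℚ ℚ_[((p : Nat.Primes) : ℕ)] β := by
        intro p hp c hc
        have hord : orderOf (c : G) = Nat.card H.1 := by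
          rw [Subgroup.orderOf_coe]
          exact orderOf_eq_card_of_forall_mem_zpowers fun x => hc ▸ Subgroup.mem_top x
        rw [hTr p H hr hH c hc, local_trace p n m hn (ξ p) b (a p) (hba p) (c : G)
          (by rw [hord]; exact Nat.card_pos) (by rw [hord]; exact hp), hβ,
          pow_gen hP b H g c hgt hc]
      obtain ⟨k, hk⟩ := integ hH (hSup p₀ H) (algebraMap ℚ _) β (htr p₀ hp₀)
      refine ⟨k, fun hH' _ p hp => ?_⟩
      rw [← sub_eq_zero]
      apply sup_zero hT hH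
      · apply AddSubgroup.sub_mem _ (hSup p H)
        apply AddSubgroup.zsmul_mem
        intro c hc
        unfold fromQ
        rw [T_coef, hθ2 H hH' c hc, map_zero]
      · intro c hc
        rw [map_sub, map_zsmul, htr p hp c hc]
        unfold fromQ
        have hq : ((Nat.card H.1 / radical (Nat.card H.1) : ℕ) : ℚ) ≠ 0 := by
          have : 0 < Nat.card H.1 / radical (Nat.card H.1) :=
            Nat.div_pos (Nat.le_of_dvd Nat.card_pos UniqueFactorizationMonoid.radical_dvd_self)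
              (Nat.pos_of_ne_zero UniqueFactorizationMonoid.radical_ne_zero)
          exact_mod_cast this.ne'
        rw [T_coef, hθ3 H hH' c hc, ← map_zsmul, ← map_sub, zsmul_eq_mul, ← hk,
          mul_assoc, mul_inv_cancel₀ hq, mul_one, sub_self, map_zero]
    · refine ⟨0, fun hH hr p hp => ?_⟩
      exact absurd ⟨hH, hr, p, hp⟩ hex
  choose k hk using hk
  -- the global element
  let S₁ : Finset (FinSub G) := ξ.support.biUnion s
  have hS₁ : ∀ p : P, s p ⊆ S₁ := by
    intro p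
    by_cases hp : p ∈ ξ.support
    · exact Finset.subset_biUnion_of_mem s hp
    · rw [hs1 p (by rw [DFinsupp.notMem_support_iff.1 hp, smul_zero])]
      exact Finset.empty_subset _
  have hS₁' : ∀ H ∈ S₁, rp H = H ∧ IsCyclic H.1 ∧ Nat.card H.1 ∣ m := by
    intro H hH
    obtain ⟨p, _, hp⟩ := Finset.mem_biUnion.1 hH
    exact hs p H hp
  let V : FinSub G → ColK ℚ G := fun H => if hH : IsCyclic H.1 then
    (w / Nat.card (Gam H.1)) • k H • ci H (θ H hH) else 0
  have hV : ∀ H, V H ∈ AvgSpan G := by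
    intro H
    by_cases hH : IsCyclic H.1
    · show (if hH : IsCyclic H.1 then
        (w / Nat.card (Gam H.1)) • k H • ci H (θ H hH) else 0) ∈ AvgSpan G
      rw [dif_pos hH]
      exact AddSubgroup.nsmul_mem _ (AddSubgroup.zsmul_mem _ (hθ1 H hH) _) _
    · show (if hH : IsCyclic H.1 then
        (w / Nat.card (Gam H.1)) • k H • ci H (θ H hH) else 0) ∈ AvgSpan G
      rw [dif_neg hH]
      exact AddSubgroup.zero_mem _
  have hv : ∑ H ∈ S₁, V H ∈ AvgSpan G := AddSubgroup.sum_mem _ fun H _ => hV H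
  obtain ⟨S0, hS0⟩ := avg_cancel (P := P) hv
  let S : Finset P := ξ.support ∪ S0
  have hTh : Th P G ξ = ∑ p ∈ S, th p (ξ p) := by
    unfold Th
    rw [DFinsupp.sumAddHom_apply, DFinsupp.sum]
    refine Finset.sum_subset Finset.subset_union_left ?_
    intro p _ hp
    rw [DFinsupp.notMem_support_iff.1 hp, map_zero]
  have hloc : ∀ p : P, (m * w) • th p (ξ p) =
      th p (cc (algebraMap ℚ ℚ_[((p : Nat.Primes) : ℕ)]) (∑ H ∈ S₁, V H)) := by
    intro p
    rw [mul_comm, mul_smul, ← map_nsmul, ← map_nsmul, hsum p, map_sum, map_sum, map_sum]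
    rw [Finset.sum_subset (hS₁ p)]
    · refine Finset.sum_congr rfl fun H hH => ?_
      obtain ⟨hr, hc, _⟩ := hS₁' H hH
      have hVH : V H = (w / Nat.card (Gam H.1)) • k H • ci H (θ H hc) := dif_pos hc
      rw [hVH, map_nsmul, map_nsmul, map_nsmul]
      congr 1
      rw [map_zsmul, map_zsmul, cc_ci]
      by_cases hp : ((p : Nat.Primes) : ℕ) ∣ Nat.card H.1
      · rw [hk H hc hr p hp, map_zsmul, map_zsmul]
        rfl
      · rw [th_zero hI hG p H hc hp, th_zero hI hG p H hc hp, smul_zero]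
    · intro H _ hH
      rw [hs0 p H hH, map_zero, smul_zero, map_zero]
  rw [hTh, Finset.smul_sum, Finset.sum_congr rfl fun p _ => hloc p,
    hS0 S Finset.subset_union_right]

end

end Pool.Agent.K3h89.FJ.Exp
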