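import Pool.Agent.Y778.NK.Final
import Pool.Agent.Q99.WC.Rel

set_option autoImplicit false

/-!
# The relative form of the trace theorem for `colim K₀(F[H])`

`Θ` is a set of injective homomorphisms `θ : A → G` of subgroups `A` of `G`, `𝓗` a set of subgroups of
`G`. Modulo the relations `[K', θ(w)] = [K, w]` and `[K, w] = 0` for `K` in a member of `𝓗`, the traces
of the functions which are invariant under conjugation and `Θ` and vanish on `𝓗` detect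
`colim K₀(F[H])` up to torsion.
-/

open Matrix

namespace Pool.Agent.K3h89.FJ

open MonoidAlgebra Pool.Agent.Y69 Pool.Agent.Y778.NK Pool.Agent.Y69.StepC
open Pool.Agent.Q99.WC (Step rel rel_step rel_conj rel_ord rel_pow exists_hom hom_eq Admi RelData)

noncomputable section

variable {G : Type} [Group G] (Θ : Set (Σ A : Subgroup G, A →* G)) (𝓗 : Set (Subgroup G))

/-- the relations in `colim K₀(R[H])` -/
def NR (R : Type) [CommRing R] : AddSubgroup (ColK R G) :=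
  AddSubgroup.closure ({z | ∃ s ∈ Θ, ∃ (K K' : FinSub G) (κ : K.1 →* K'.1)
      (w : K0 (MonoidAlgebra R K.1)),
      (∀ k : K.1, ∃ hk : (k : G) ∈ s.1, (κ k : G) = s.2 ⟨k, hk⟩) ∧
      z = ci K' (K0.map (mapDomainRingHom R κ) w) - ci K w} ∪
    {z | ∃ H ∈ 𝓗, ∃ K : FinSub G, K.1 ≤ H ∧ ∃ w : K0 (MonoidAlgebra R K.1), z = ci K w})

variable (R : Type) [CommRing R]

/-- the quotient -/
abbrev QR : Type := ColK R G ⧸ NR Θ 𝓗 R

/-- the classes in the quotient -/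
def qs {C : Type} [Group C] [Finite C] (φ : C →* G) : K0 (MonoidAlgebra R C) →+ QR Θ 𝓗 R :=
  (QuotientAddGroup.mk' (NR Θ 𝓗 R)).comp (sy R φ)

variable {R}

theorem qs_apply {C : Type} [Group C] [Finite C] (φ : C →* G) (u : K0 (MonoidAlgebra R C)) :
    qs Θ 𝓗 R φ u = QuotientAddGroup.mk' (NR Θ 𝓗 R) (sy R φ u) := rfl

theorem qs_map {C D : Type} [Group C] [Group D] [Finite C] [Finite D] (φ : C →* G)
    (ψ : D →* G) (f : D →* C) (g : G) (h : ∀ x, φ (f x) = g * ψ x * g⁻¹)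
    (u : K0 (MonoidAlgebra R D)) :
    qs Θ 𝓗 R φ (K0.map (mapDomainRingHom R f) u) = qs Θ 𝓗 R ψ u := by
  rw [qs_apply, qs_apply, sy_map φ ψ f g h]

theorem qs_conj {C : Type} [Group C] [Finite C] (φ ψ : C →* G) (a : G)
    (h : ∀ x, ψ x = a * φ x * a⁻¹) (u : K0 (MonoidAlgebra R C)) :
    qs Θ 𝓗 R φ u = qs Θ 𝓗 R ψ u := by
  have h2 := qs_map Θ 𝓗 ψ φ (MonoidHom.id C) a (fun x => h x) u
  have h3 := qs_map Θ 𝓗 ψ ψ (MonoidHom.id C) 1 (fun x => by simp) u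
  rw [← h2, h3]

theorem qs_pair {C : Type} [Group C] [Finite C] {s : Σ A : Subgroup G, A →* G} (hs : s ∈ Θ)
    (χ : C →* s.1) (u : K0 (MonoidAlgebra R C)) :
    qs Θ 𝓗 R (s.1.subtype.comp χ) u = qs Θ 𝓗 R (s.2.comp χ) u := by
  have hmem : ∀ y : (rg (s.1.subtype.comp χ)).1, (y : G) ∈ s.1 := by
    rintro ⟨_, x, rfl⟩
    exact (χ x).2
  have hmem2 : ∀ y : (rg (s.1.subtype.comp χ)).1, s.2 ⟨y, hmem y⟩ ∈ (rg (s.2.comp χ)).1 := by
    rintro ⟨_, x, rfl⟩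
    exact ⟨x, rfl⟩
  let κ : (rg (s.1.subtype.comp χ)).1 →* (rg (s.2.comp χ)).1 :=
    { toFun := fun y => ⟨s.2 ⟨y, hmem y⟩, hmem2 y⟩
      map_one' := by
        apply Subtype.ext
        show s.2 ⟨(1 : G), _⟩ = 1
        exact map_one s.2
      map_mul' := fun y z => by
        apply Subtype.ext
        show s.2 ⟨(y : G) * (z : G), _⟩ = s.2 ⟨y, hmem y⟩ * s.2 ⟨z, hmem z⟩
        rw [← map_mul]
        rfl }
  have h1 : κ.comp (rrg (s.1.subtype.comp χ)) = rrg (s.2.comp χ) := by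
    ext x
    rfl
  rw [qs_apply, qs_apply, sy_apply, sy_apply, ← sub_eq_zero, ← map_sub]
  have h2 : ci (rg (s.2.comp χ)) (K0.map (mapDomainRingHom R κ)
        (K0.map (mapDomainRingHom R (rrg (s.1.subtype.comp χ))) u)) -
      ci (rg (s.1.subtype.comp χ))
        (K0.map (mapDomainRingHom R (rrg (s.1.subtype.comp χ))) u) ∈ NR Θ 𝓗 R := by
    refine AddSubgroup.subset_closure (Or.inl ⟨s, hs, _, _, κ, _, ?_, rfl⟩)
    intro k
    exact ⟨hmem k, rfl⟩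
  rw [K0map_comp, mapDomainRingHom_comp', h1] at h2
  have h3 := (NR Θ 𝓗 R).neg_mem h2
  rw [neg_sub] at h3
  exact (QuotientAddGroup.eq_zero_iff _).2 h3

theorem qs_kill {C : Type} [Group C] [Finite C] {H : Subgroup G} (hH : H ∈ 𝓗) (φ : C →* G)
    (h : ∀ x, φ x ∈ H) (u : K0 (MonoidAlgebra R C)) : qs Θ 𝓗 R φ u = 0 := by
  rw [qs_apply, sy_apply]
  refine (QuotientAddGroup.eq_zero_iff _).2 (AddSubgroup.subset_closure (Or.inr ⟨H, hH, rg φ, ?_,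
    _, rfl⟩))
  rintro _ ⟨x, rfl⟩
  exact h x

theorem qs_rel (hΘ : ∀ s ∈ Θ, Function.Injective s.2) {g g' : G}
    (h : Relation.EqvGen (Step Θ) g g') {C : Type}
    [CommGroup C] [Finite C] (c : C) (hc : Subgroup.zpowers c = ⊤) :
    ∀ (φ ψ : C →* G), φ c = g → ψ c = g' → ∀ u : K0 (MonoidAlgebra R C),
      qs Θ 𝓗 R φ u = qs Θ 𝓗 R ψ u := by
  induction h with
  | rel x y hst =>
    intro φ ψ hφ hψ u
    rcases hst with ⟨a, rfl⟩ | ⟨s, hs, l, rfl, rfl⟩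
    · refine qs_conj Θ 𝓗 φ ψ a (fun x => ?_) u
      have hx : x ∈ Subgroup.zpowers c := by rw [hc]; exact Subgroup.mem_top x
      obtain ⟨k, rfl⟩ := Subgroup.mem_zpowers_iff.1 hx
      rw [map_zpow, map_zpow, hφ, hψ, conj_zpow]
    · have hl : orderOf l ∣ orderOf c := by
        rw [← Subgroup.orderOf_coe l, ← hφ]
        exact orderOf_map_dvd φ c
      obtain ⟨χ, hχ⟩ := exists_hom c hc l hl
      have e1 : φ = s.1.subtype.comp χ := hom_eq c hc (by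
        rw [hφ, MonoidHom.comp_apply, hχ]
        rfl)
      have e2 : ψ = s.2.comp χ := hom_eq c hc (by rw [hψ, MonoidHom.comp_apply, hχ])
      rw [e1, e2]
      exact qs_pair Θ 𝓗 hs χ u
  | refl x =>
    intro φ ψ hφ hψ u
    rw [hom_eq c hc (hφ.trans hψ.symm)]
  | symm x y _ ih =>
    intro φ ψ hφ hψ u
    exact (ih ψ φ hψ hφ u).symm
  | trans x y z h1 h2 ih1 ih2 =>
    intro φ ψ hφ hψ u
    have hy : orderOf y ∣ orderOf c := by
      rw [← rel_ord Θ hΘ (g := x) (g' := y) h1, ← hφ]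
      exact orderOf_map_dvd φ c
    obtain ⟨χ, hχ⟩ := exists_hom c hc y hy
    rw [ih1 φ χ hφ hχ u, ih2 χ ψ hχ hψ u]

/-- the data for the separation theorem -/
def dat (hΘ : ∀ s ∈ Θ, Function.Injective s.2) (hT : S_Tors) (F : Type) [Field F] [CharZero F] :
    RelData (theory hT F) G (QR Θ 𝓗 F) where
  sym φ := qs Θ 𝓗 F φ
  hs φ ψ f g h u := qs_map Θ 𝓗 φ ψ f g h u
  r := rel Θ
  ord g g' h := rel_ord Θ hΘ h
  pow g g' h k := rel_pow Θ h k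
  hr c hc φ ψ h u := qs_rel Θ 𝓗 hΘ h c hc φ ψ rfl rfl u
  Z := {g | ∃ H ∈ 𝓗, ∃ z ∈ H, rel Θ z g}
  Zsat := by
    rintro g g' h ⟨H, hH, z, hz, hzg⟩
    exact ⟨H, hH, z, hz, (rel Θ).trans hzg h⟩
  hZ := by
    rintro C _ _ c hc φ ⟨H, hH, z, hz, hzg⟩ u
    have hy : orderOf z ∣ orderOf c := by
      rw [rel_ord Θ hΘ hzg]
      exact orderOf_map_dvd φ c
    obtain ⟨ψ, hψ⟩ := exists_hom c hc z hy
    show qs Θ 𝓗 F φ u = 0
    rw [← qs_rel Θ 𝓗 hΘ hzg c hc ψ φ hψ rfl u]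
    refine qs_kill Θ 𝓗 hH ψ (fun x => ?_) u
    have hx : x ∈ Subgroup.zpowers c := by rw [hc]; exact Subgroup.mem_top x
    obtain ⟨k, rfl⟩ := Subgroup.mem_zpowers_iff.1 hx
    rw [map_zpow, hψ]
    exact H.zpow_mem hz k

theorem T_zero (x : K0 (MonoidAlgebra R G)) : T R (fun _ : G => (0 : ℤ)) x = 0 := by
  obtain ⟨X, hX⟩ := T_repr x
  rw [hX _ (fun _ _ => rfl), Pool.Agent.H23R2.Cyc.ell_eq_sum _ X.coeff.support X
    fun g hg => Finsupp.mem_support_iff.2 hg]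
  refine Finset.sum_eq_zero fun g _ => ?_
  rw [Int.cast_zero, mul_zero]

/-- traces of admissible functions vanish on the images of the members of `𝓗` and do not see `Θ` -/
theorem T_kill {h : G → ℤ} (hh : Admi Θ 𝓗 h) {A : Type} [Group A] (φ : A →* G)
    (hφ : ∀ a, ∃ H ∈ 𝓗, φ a ∈ H) (x : K0 (MonoidAlgebra R A)) :
    T R h (K0.map (mapDomainRingHom R φ) x) = 0 := by
  rw [T_map φ (Admi.cls Θ 𝓗 hh)]
  have h1 : (fun a => h (φ a)) = fun _ => (0 : ℤ) := by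
    funext a
    obtain ⟨H, hH, ha⟩ := hφ a
    exact hh.2 _ ⟨H, hH, _, ha, (rel Θ).refl _⟩
  rw [h1, T_zero]

theorem T_pair {h : G → ℤ} (hh : Admi Θ 𝓗 h) {A : Type} [Group A] (φ ψ : A →* G)
    (hφ : ∀ a, rel Θ (φ a) (ψ a)) (x : K0 (MonoidAlgebra R A)) :
    T R h (K0.map (mapDomainRingHom R φ) x) = T R h (K0.map (mapDomainRingHom R ψ) x) := by
  rw [T_map φ (Admi.cls Θ 𝓗 hh), T_map ψ (Admi.cls Θ 𝓗 hh)]
  have h1 : (fun a => h (φ a)) = fun a => h (ψ a) := by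
    funext a
    exact hh.1 _ _ (hφ a)
  rw [h1]

theorem NR_le {h : G → ℤ} (hh : Admi Θ 𝓗 h) : NR Θ 𝓗 R ≤ (TC R h).ker := by
  unfold NR
  rw [AddSubgroup.closure_le]
  rintro z (⟨s, hs, K, K', κ, w, hκ, rfl⟩ | ⟨H, hH, K, hK, w, rfl⟩)
  · show TC R h (_ - _) = 0
    rw [map_sub, sub_eq_zero]
    show T R h (asm R G _) = T R h (asm R G _)
    rw [asm_ci, asm_ci, K0map_comp, mapDomainRingHom_comp']
    apply T_pair Θ 𝓗 hh
    intro k
    obtain ⟨hk, hk2⟩ := hκ k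
    show rel Θ (κ k : G) (k : G)
    rw [hk2]
    exact (rel Θ).symm (rel_step Θ (Or.inr ⟨s, hs, ⟨k, hk⟩, rfl, rfl⟩))
  · show T R h (asm R G _) = 0
    rw [asm_ci]
    apply T_kill Θ 𝓗 hh
    intro k
    exact ⟨H, hH, hK k.2⟩

open Classical in
/-- the traces on the quotient -/
def TQ (R : Type) [CommRing R] (h : G → ℤ) : QR Θ 𝓗 R →+ R :=
  if hh : Admi Θ 𝓗 h then QuotientAddGroup.lift (NR Θ 𝓗 R) (TC R h) (NR_le Θ 𝓗 hh) else 0

theorem TQ_mk {h : G → ℤ} (hh : Admi Θ 𝓗 h) (x : ColK R G) :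
    TQ Θ 𝓗 R h (QuotientAddGroup.mk' (NR Θ 𝓗 R) x) = TC R h x := by
  unfold TQ
  rw [dif_pos hh, QuotientAddGroup.mk'_apply, QuotientAddGroup.lift_mk]

/-- **Relative injectivity for `K₀(F[-])`.** -/
theorem inj_rel (hA : S_Artin) (hT : S_Tors) (hΘ : ∀ s ∈ Θ, Function.Injective s.2) {F : Type}
    [Field F] [CharZero F] (y : ColK F G) (h0 : ∀ h : G → ℤ, Admi Θ 𝓗 h → TC F h y = 0) :
    ∃ k : ℕ, 0 < k ∧ k • y ∈ NR Θ 𝓗 F := by
  obtain ⟨k, hk, h1⟩ := cover hA (fun n hn => isUnit_iff_ne_zero.2 (by exact_mod_cast hn.ne')) y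
  obtain ⟨l, hl, h2⟩ := Pool.Agent.Q99.WC.main (dat Θ 𝓗 hΘ hT F) (TQ Θ 𝓗 F)
    (fun h hh C _ _ _ φ u => by
      show TQ Θ 𝓗 F h (qs Θ 𝓗 F φ u) = _
      rw [qs_apply, TQ_mk Θ 𝓗 hh, TC_sy φ (Admi.cls Θ 𝓗 hh)]
      exact T_eq_sum _ u)
    (y := QuotientAddGroup.mk' (NR Θ 𝓗 F) (k • y)) (by
      have h4 : SE F G ≤ (AddSubgroup.closure {z : QR Θ 𝓗 F | ∃ (C : Type) (_ : CommGroup C)
        (_ : Finite C) (_ : Nat.card C ∣ 0) (φ : C →* G) (_ : Function.Injective φ)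
        (u : (theory hT F).U C), z = (dat Θ 𝓗 hΘ hT F).sym φ u}).comap
          (QuotientAddGroup.mk' (NR Θ 𝓗 F)) := by
        unfold SE
        rw [AddSubgroup.closure_le]
        rintro z ⟨C, i1, i2, φ, hφ, u, rfl⟩
        exact AddSubgroup.subset_closure ⟨C, i1, i2, dvd_zero _, φ, hφ, u, rfl⟩
      exact h4 h1)
    (fun h hh => by rw [TQ_mk Θ 𝓗 hh, map_nsmul, h0 h hh, smul_zero])
  refine ⟨l * k, Nat.mul_pos hl hk, ?_⟩
  rw [mul_smul]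
  rw [← map_nsmul] at h2
  exact (QuotientAddGroup.eq_zero_iff _).1 h2

end

end Pool.Agent.K3h89.FJ
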