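import Pool.Agent.K3h89.FJ.RelA
import Pool.Agent.Y778.NK.KMS

set_option autoImplicit false

/-!
# The relative form of the injectivity theorem in degree `-1`
-/

open Matrix

namespace Pool.Agent.K3h89.FJ

open MonoidAlgebra Pool.Agent.Y69 Pool.Agent.Y778.NK Pool.Agent.Y69.StepC
open Pool.Agent.Q99.WC (Step rel rel_step rel_conj rel_ord rel_pow exists_hom hom_eq Admi RelData)
open Pool.Agent.H23R2.Cyc (ell)

noncomputable section

open Classical

variable {G : Type} [Group G] (Θ : Set (Σ A : Subgroup G, A →* G)) (𝓗 : Set (Subgroup G))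

theorem Admi.ite (hΘ : ∀ s ∈ Θ, Function.Injective s.2) (p : ℕ) {h : G → ℤ} (hh : Admi Θ 𝓗 h) :
    Admi Θ 𝓗 (fun g => if Sg p g then h g else 0) ∧
      Admi Θ 𝓗 (fun g => if Sg p g then 0 else h g) := by
  have hsg : ∀ g g' : G, rel Θ g g' → (Sg p g ↔ Sg p g') := by
    intro g g' h
    unfold Sg
    rw [rel_ord Θ hΘ h]
  refine ⟨⟨fun g g' hg => ?_, fun g hg => ?_⟩, ⟨fun g g' hg => ?_, fun g hg => ?_⟩⟩
  · simp only [hsg g g' hg, hh.1 g g' hg]
  · show (if Sg p g then h g else 0) = 0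
    rw [hh.2 g hg, ite_self]
  · simp only [hsg g g' hg, hh.1 g g' hg]
  · show (if Sg p g then 0 else h g) = 0
    rw [hh.2 g hg, ite_self]

/-- **Relative integrality.** -/
theorem integral_rel (hA : S_Artin) (hT : S_Tors) (hI : S_Int) (hG : S_Gen)
    (hΘ : ∀ s ∈ Θ, Function.Injective s.2) {p : ℕ} [hp : Fact p.Prime] (y : ColK ℚ_[p] G)
    (h0 : ∀ h : G → ℤ, Admi Θ 𝓗 h → (∀ g, h g ≠ 0 → Sg p g) → TC ℚ_[p] h y = 0) :
    ∃ (m : ℕ) (w : ColK ℤ_[p] G), 0 < m ∧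
      m • y - cc PadicInt.Coe.ringHom w ∈ NR Θ 𝓗 ℚ_[p] := by
  obtain ⟨k, hk, h1⟩ := cover hA (R := ℚ_[p])
    (fun n hn => isUnit_iff_ne_zero.2 (by exact_mod_cast hn.ne')) y
  obtain ⟨M, w, z2, hM, h2, h3, h4⟩ := decomp hI hG h1
  have h5 : ∀ h : G → ℤ, Admi Θ 𝓗 h → TC ℚ_[p] h z2 = 0 := by
    intro h hh
    let h' : G → ℤ := fun g => if Sg p g then h g else 0
    let h'' : G → ℤ := fun g => if Sg p g then 0 else h g
    obtain ⟨a1, a2⟩ := Admi.ite Θ 𝓗 hΘ p hh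
    have c1 : IsCls h' := Admi.cls Θ 𝓗 a1
    have c2 : IsCls h'' := Admi.cls Θ 𝓗 a2
    have e1 : h = fun g => h' g + h'' g := by
      funext g
      show h g = (if Sg p g then h g else 0) + if Sg p g then 0 else h g
      split_ifs <;> simp
    have s1 : ∀ g, h' g ≠ 0 → Sg p g := by
      intro g hg
      by_contra h6
      exact hg (if_neg h6)
    have s2 : ∀ g, h'' g ≠ 0 → ¬ Sg p g := by
      intro g hg h6
      exact hg (if_pos h6)
    have e2 : TC ℚ_[p] h z2 = TC ℚ_[p] h' z2 + TC ℚ_[p] h'' z2 := by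
      conv_lhs => rw [e1]
      exact T_add_fun c1 c2 _
    rw [e2, h4 h'' c2 s2, add_zero]
    have e3 : z2 = M • k • y - cc PadicInt.Coe.ringHom w := by rw [h2]; abel
    rw [e3, map_sub, map_nsmul, map_nsmul, h0 h' a1 s1, h3 h' c1 s1, smul_zero, smul_zero,
      sub_zero]
  obtain ⟨l, hl, h6⟩ := inj_rel Θ 𝓗 hA hT hΘ z2 h5
  refine ⟨l * (M * k), l • w, Nat.mul_pos hl (Nat.mul_pos hM hk), ?_⟩
  rw [mul_smul, mul_smul, h2, smul_add, map_nsmul, add_sub_cancel_left]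
  exact h6

variable (P : Set Nat.Primes)

/-- the relations in `K₋₁(ℤ[G])` -/
def KR : AddSubgroup (KM P G) :=
  AddSubgroup.closure ({z | ∃ s ∈ Θ, ∃ y : KM P s.1,
      z = KM.map P s.2 y - KM.map P s.1.subtype y} ∪
    {z | ∃ H ∈ 𝓗, ∃ y : KM P H, z = KM.map P H.subtype y})

/-- the relations in the colimit -/
def CR : AddSubgroup (ColKM P G) :=
  AddSubgroup.closure ({z | ∃ s ∈ Θ, ∃ (K K' : FinSub G) (κ : K.1 →* K'.1) (w : KM P K.1),
      (∀ k : K.1, ∃ hk : (k : G) ∈ s.1, (κ k : G) = s.2 ⟨k, hk⟩) ∧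
      z = ik K' (KM.map P κ w) - ik K w} ∪
    {z | ∃ H ∈ 𝓗, ∃ K : FinSub G, K.1 ≤ H ∧ ∃ w : KM P K.1, z = ik K w})

/-- the relations in the local groups -/
def LR : AddSubgroup (Π₀ p : P, K0 (MonoidAlgebra ℚ_[((p : Nat.Primes) : ℕ)] G)) :=
  AddSubgroup.closure ({z | ∃ s ∈ Θ, ∃ y, z = KM.premap P s.2 y - KM.premap P s.1.subtype y} ∪
    {z | ∃ H ∈ 𝓗, ∃ y, z = KM.premap P H.subtype y})

variable {P}

theorem KR_le (z : KM P G) (hz : z ∈ KR Θ 𝓗 P) : ∃ d ∈ LR Θ 𝓗 P, km P G d = z := by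
  unfold KR at hz
  induction hz using AddSubgroup.closure_induction with
  | mem z hz =>
    rcases hz with ⟨s, hs, y, rfl⟩ | ⟨H, hH, y, rfl⟩
    · obtain ⟨y, rfl⟩ := km_surj y
      exact ⟨_, AddSubgroup.subset_closure (Or.inl ⟨s, hs, y, rfl⟩), rfl⟩
    · obtain ⟨y, rfl⟩ := km_surj y
      exact ⟨_, AddSubgroup.subset_closure (Or.inr ⟨H, hH, y, rfl⟩), rfl⟩
  | zero => exact ⟨0, (LR Θ 𝓗 P).zero_mem, map_zero _⟩
  | add x y _ _ hx hy =>
    obtain ⟨a, ha, rfl⟩ := hx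
    obtain ⟨b, hb, rfl⟩ := hy
    exact ⟨a + b, (LR Θ 𝓗 P).add_mem ha hb, map_add _ _ _⟩
  | neg x _ hx =>
    obtain ⟨a, ha, rfl⟩ := hx
    exact ⟨-a, (LR Θ 𝓗 P).neg_mem ha, map_neg _ _⟩

theorem premap_at {A B : Type} [Group A] [Group B] (φ : A →* B)
    (z : Π₀ p : P, K0 (MonoidAlgebra ℚ_[((p : Nat.Primes) : ℕ)] A)) (p : P) :
    KM.premap P φ z p = K0.map (mapDomainRingHom _ φ) (z p) := rfl

theorem LR_T {h : G → ℤ} (hh : Admi Θ 𝓗 h)
    {d : Π₀ p : P, K0 (MonoidAlgebra ℚ_[((p : Nat.Primes) : ℕ)] G)} (hd : d ∈ LR Θ 𝓗 P) (p : P) :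
    T ℚ_[((p : Nat.Primes) : ℕ)] h (d p) = 0 := by
  unfold LR at hd
  induction hd using AddSubgroup.closure_induction with
  | mem z hz =>
    rcases hz with ⟨s, hs, y, rfl⟩ | ⟨H, hH, y, rfl⟩
    · rw [DFinsupp.sub_apply, map_sub, sub_eq_zero, premap_at, premap_at]
      apply T_pair Θ 𝓗 hh
      intro k
      exact (rel Θ).symm (rel_step Θ (Or.inr ⟨s, hs, k, rfl, rfl⟩))
    · rw [premap_at]
      apply T_kill Θ 𝓗 hh
      intro k
      exact ⟨H, hH, k.2⟩
  | zero => rw [DFinsupp.zero_apply, map_zero]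
  | add x y _ _ hx hy => rw [DFinsupp.add_apply, map_add, hx, hy, add_zero]
  | neg x _ hx => rw [DFinsupp.neg_apply, map_neg, hx, neg_zero]

/-- the local relations are relations of the colimit -/
theorem th_NR (p : P) {z : ColK ℚ_[((p : Nat.Primes) : ℕ)] G} (hz : z ∈ NR Θ 𝓗 _) :
    th p z ∈ CR Θ 𝓗 P := by
  unfold NR at hz
  induction hz using AddSubgroup.closure_induction with
  | mem z hz =>
    rcases hz with ⟨s, hs, K, K', κ, w, hκ, rfl⟩ | ⟨H, hH, K, hK, w, rfl⟩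
    · rw [map_sub, th_ci, th_ci, ← premap_single, ← map_km]
      exact AddSubgroup.subset_closure (Or.inl ⟨s, hs, K, K', κ, _, hκ, rfl⟩)
    · rw [th_ci]
      exact AddSubgroup.subset_closure (Or.inr ⟨H, hH, K, hK, _, rfl⟩)
  | zero => rw [map_zero]; exact (CR Θ 𝓗 P).zero_mem
  | add x y _ _ hx hy => rw [map_add]; exact (CR Θ 𝓗 P).add_mem hx hy
  | neg x _ hx => rw [map_neg]; exact (CR Θ 𝓗 P).neg_mem hx

/-- **Theorem.** The assembly map in degree `-1` stays rationally injective modulo the relations of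
`Θ` and `𝓗`. -/
theorem main_rel (hA : S_Artin) (hT : S_Tors) (hI : S_Int) (hG : S_Gen) (hP : S_Pow)
    (hC : S_Comb) (hΘ : ∀ s ∈ Θ, Function.Injective s.2)
    (x : ColKM P G) (n : ℕ) (hn : 0 < n) (hx : n • asKM P G x ∈ KR Θ 𝓗 P) :
    ∃ l : ℕ, 0 < l ∧ l • x ∈ CR Θ 𝓗 P := by
  obtain ⟨ξ, rfl⟩ := Th_surj x
  obtain ⟨d, hd, hd2⟩ := KR_le Θ 𝓗 _ hx
  rw [asKM_Th, ← map_nsmul, eq_comm, ← sub_eq_zero, ← map_sub, km_zero_iff] at hd2
  obtain ⟨b, hb⟩ := hd2
  choose a ha using hb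
  -- the global class function
  obtain ⟨X, hX⟩ := T_repr b
  let β : G → ℚ := fun g => if orderOf g = 0 then 0 else T ℚ (cind g) b
  have hord : ∀ x y : G, IsConj x y → orderOf x = orderOf y := by
    intro x y hxy
    obtain ⟨c, rfl⟩ := isConj_iff.1 hxy
    exact ((MulAut.conj c).orderOf_eq x).symm
  have hcind : ∀ x y : G, IsConj x y → cind x = cind y := by
    intro x y hxy
    funext z
    unfold cind
    by_cases h : IsConj x z
    · rw [if_pos h, if_pos (hxy.symm.trans h)]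
    · rw [if_neg h, if_neg fun h' => h (hxy.trans h')]
  obtain ⟨M, v, hM, hv, hvβ⟩ := hC G β X.coeff.support
    (fun x y hxy => by
      show (if orderOf x = 0 then 0 else T ℚ (cind x) b) = if orderOf y = 0 then 0 else T ℚ (cind y) b
      rw [hord x y hxy, hcind x y hxy])
    (fun g hg => if_pos hg)
    (fun g k hg hk => by
      have h1 : orderOf (g ^ k) = orderOf g := Nat.Coprime.orderOf_pow hk.symm
      show (if orderOf (g ^ k) = 0 then 0 else T ℚ (cind (g ^ k)) b) =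
        if orderOf g = 0 then 0 else T ℚ (cind g) b
      rw [h1, hP G b g k hg hk])
    (fun g hg => by
      by_contra hcon
      push Not at hcon
      apply hg
      show (if orderOf g = 0 then 0 else T ℚ (cind g) b) = 0
      split_ifs
      · rfl
      · rw [hX _ (cind_cls g), Pool.Agent.H23R2.Cyc.ell_eq_sum _ X.coeff.support X
          fun g hg => Finsupp.mem_support_iff.2 hg]
        refine Finset.sum_eq_zero fun y hy => ?_
        have : cind g y = 0 := if_neg fun h => hcon y hy h.symm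
        rw [this, Int.cast_zero, mul_zero])
  -- the traces of the combination of averaging idempotents
  have hvT : ∀ h : G → ℤ, IsCls h → (∀ g, h g ≠ 0 → 0 < orderOf g) →
      TC ℚ h v = M * T ℚ h b := by
    intro h hh hs
    have h1 : T ℚ h (asm ℚ G v - M • b) = 0 := by
      apply T_of_cind hh
      intro g hg
      rw [map_sub, map_nsmul]
      have h2 : T ℚ (cind g) (asm ℚ G v) = M * β g := hvβ g
      have h3 : β g = T ℚ (cind g) b := if_neg (hs g hg).ne'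
      rw [h2, h3, nsmul_eq_mul, sub_self]
    rw [map_sub, map_nsmul, sub_eq_zero, nsmul_eq_mul] at h1
    exact h1
  -- the local classes
  have hloc : ∀ p : P, ∃ (m : ℕ) (w : ColK ℤ_[((p : Nat.Primes) : ℕ)] G), 0 < m ∧
      m • ((M * n) • ξ p - cc (algebraMap ℚ ℚ_[((p : Nat.Primes) : ℕ)]) v) -
        cc PadicInt.Coe.ringHom w ∈ NR Θ 𝓗 _ := by
    intro p
    apply integral_rel Θ 𝓗 hA hT hI hG hΘ
    intro h hh hs
    have hc := Admi.cls Θ 𝓗 hh
    have h1 : T ℚ_[((p : Nat.Primes) : ℕ)] h (asm _ G (n • ξ p)) =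
        algebraMap ℚ ℚ_[((p : Nat.Primes) : ℕ)] (T ℚ h b) := by
      have h2 : asm _ G (n • ξ p) = d p + (fromQ p G b + fromZp p G (a p)) := by
        have h3 := ha p
        rw [DFinsupp.sub_apply] at h3
        rw [← h3, add_sub_cancel, map_nsmul]
        rfl
      have h4 : T ℤ_[((p : Nat.Primes) : ℕ)] h (a p) = 0 := by
        apply T_of_cind hc
        intro g hg
        exact sing ((p : Nat.Primes) : ℕ) G (a p) g (hs g hg).1 (hs g hg).2
      rw [h2, map_add, LR_T Θ 𝓗 hh hd p, map_add, zero_add]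
      unfold fromQ fromZp
      rw [T_coef, T_coef, h4, map_zero, add_zero]
    rw [map_sub, TC_cc, hvT h hc (fun g hg => (hs g hg).1), mul_smul, map_nsmul]
    have h3 : TC ℚ_[((p : Nat.Primes) : ℕ)] h (n • ξ p) =
        algebraMap ℚ ℚ_[((p : Nat.Primes) : ℕ)] (T ℚ h b) := h1
    rw [h3, map_mul, map_natCast, nsmul_eq_mul, sub_self]
  choose m w hm hw using hloc
  obtain ⟨S0, hS0⟩ := avg_cancel (P := P) hv
  let S : Finset P := ξ.support ∪ S0
  let m0 : ℕ := ∏ p ∈ S, m p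
  have hm0 : 0 < m0 := Finset.prod_pos fun p _ => hm p
  have hTh : Th P G ξ = ∑ p ∈ S, th p (ξ p) := by
    unfold Th
    rw [DFinsupp.sumAddHom_apply, DFinsupp.sum]
    refine Finset.sum_subset Finset.subset_union_left ?_
    intro p _ hp
    rw [DFinsupp.notMem_support_iff.1 hp, map_zero]
  refine ⟨m0 * (M * n), Nat.mul_pos hm0 (Nat.mul_pos hM hn), ?_⟩
  have h4 : ∀ p ∈ S, (m0 * (M * n)) • th p (ξ p) -
      m0 • th p (cc (algebraMap ℚ ℚ_[((p : Nat.Primes) : ℕ)]) v) ∈ CR Θ 𝓗 P := by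
    intro p hp
    obtain ⟨k, hk⟩ := Finset.dvd_prod_of_mem m hp
    have h5 : m0 • ((M * n) • ξ p - cc (algebraMap ℚ ℚ_[((p : Nat.Primes) : ℕ)]) v) -
        cc PadicInt.Coe.ringHom (k • w p) ∈ NR Θ 𝓗 _ := by
      have h6 : m0 = k * m p := by rw [mul_comm]; exact hk
      have h7 := AddSubgroup.nsmul_mem _ (hw p) k
      rw [smul_sub, ← mul_smul, ← h6, ← map_nsmul] at h7
      exact h7
    have h7 := th_NR Θ 𝓗 p h5
    rw [map_sub, th_zp, sub_zero, map_nsmul, map_sub, smul_sub, map_nsmul, smul_smul] at h7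
    exact h7
  have h8 := AddSubgroup.sum_mem _ h4
  rw [Finset.sum_sub_distrib, ← Finset.smul_sum, ← Finset.smul_sum,
    hS0 S Finset.subset_union_right, smul_zero, sub_zero, ← hTh] at h8
  exact h8

end

end Pool.Agent.K3h89.FJ
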