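import Pool.Agent.K3h89.FJ.RelB
import Pool.Agent.Y43.NK.Cyc

set_option autoImplicit false

/-!
# Independent classes in `K₋₁(ℤ[G])` modulo the relations
-/

open Matrix

namespace Pool.Agent.K3h89.FJ

open MonoidAlgebra Pool.Agent.Y69 Pool.Agent.Y778.NK Pool.Agent.Y69.StepC
open Pool.Agent.Q99.WC (Step rel rel_step rel_conj rel_ord rel_pow exists_hom hom_eq Admi RelData)
open Pool.Agent.H23R2.Cyc (ell)

noncomputable section

open Classical

variable {G : Type} [Group G] (Θ : Set (Σ A : Subgroup G, A →* G)) (𝓗 : Set (Subgroup G))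
  {P : Set Nat.Primes}

/-- the class of the trivial representation over `ℚ_q` of a finite group -/
def tr0 (P : Set Nat.Primes) (H : Type) [Group H] [Finite H] (q : P) :
    Π₀ p : P, K0 (MonoidAlgebra ℚ_[((p : Nat.Primes) : ℕ)] H) :=
  DFinsupp.single (β := LQ P H) q (fromQ (q : Nat.Primes) H (avgCl H))

theorem T_tr0 {h : G → ℤ} (hh : IsCls h) (H : Subgroup G) [Finite H] (q p : P) :
    T ℚ_[((p : Nat.Primes) : ℕ)] h (KM.premap P H.subtype (tr0 P H q) p) =
      if q = p then algebraMap ℚ ℚ_[((p : Nat.Primes) : ℕ)] (T ℚ (fun x : H => h x) (avgCl H))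
      else 0 := by
  rw [premap_at]
  split_ifs with hq
  · subst hq
    have h1 : (tr0 P H q) q = fromQ (q : Nat.Primes) H (avgCl H) := by
      unfold tr0
      rw [DFinsupp.single_eq_same]
    rw [h1, T_map _ hh]
    unfold fromQ
    rw [T_coef]
    rfl
  · have h1 : (tr0 P H q) p = 0 := by
      unfold tr0
      exact DFinsupp.single_eq_of_ne (Ne.symm hq)
    rw [h1, map_zero, map_zero]

/-- the indicator function of a class -/
def rind (g : G) : G → ℤ := fun y => if rel Θ g y then 1 else 0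

theorem rind_admi {g : G} (hg : ∀ H ∈ 𝓗, ∀ z ∈ H, ¬ rel Θ z g) : Admi Θ 𝓗 (rind Θ g) := by
  refine ⟨fun x y hxy => ?_, ?_⟩
  · have h1 : rel Θ g x ↔ rel Θ g y :=
      ⟨fun h => (rel Θ).trans h hxy, fun h => (rel Θ).trans h ((rel Θ).symm hxy)⟩
    unfold rind
    simp only [h1]
  · rintro y ⟨H, hH, z, hz, hzy⟩
    unfold rind
    rw [if_neg]
    intro h
    exact hg H hH z hz ((rel Θ).trans hzy ((rel Θ).symm h))

theorem avg_ne {g : G} (hg : ∀ H ∈ 𝓗, ∀ z ∈ H, ¬ rel Θ z g) [Finite (Subgroup.zpowers g)] :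
    T ℚ (fun x : Subgroup.zpowers g => rind Θ g x) (avgCl (Subgroup.zpowers g)) ≠ 0 := by
  let _ := Fintype.ofFinite (Subgroup.zpowers g)
  have hc := Admi.cls Θ 𝓗 (rind_admi Θ 𝓗 hg)
  rw [Pool.Agent.Y43.NK.T_avg (Subgroup.zpowers g) (fun x => rind Θ g x) (fun x y => hc x y)]
  apply mul_ne_zero
  · exact inv_ne_zero (by exact_mod_cast Nat.card_pos.ne')
  · apply ne_of_gt
    apply Finset.sum_pos'
    · intro x _
      unfold rind
      split_ifs <;> simp
    · refine ⟨⟨g, Subgroup.mem_zpowers g⟩, Finset.mem_univ _, ?_⟩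
      unfold rind
      rw [if_pos ((rel Θ).refl g)]
      simp

theorem avg_zero {g g' : G} (hg : ∀ H ∈ 𝓗, ∀ z ∈ H, ¬ rel Θ z g)
    (hs : ∀ k : ℤ, ¬ rel Θ (g' ^ k) g) [Finite (Subgroup.zpowers g')] :
    T ℚ (fun x : Subgroup.zpowers g' => rind Θ g x) (avgCl (Subgroup.zpowers g')) = 0 := by
  let _ := Fintype.ofFinite (Subgroup.zpowers g')
  have hc := Admi.cls Θ 𝓗 (rind_admi Θ 𝓗 hg)
  rw [Pool.Agent.Y43.NK.T_avg (Subgroup.zpowers g') (fun x => rind Θ g x) (fun x y => hc x y)]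
  rw [Finset.sum_eq_zero, mul_zero]
  rintro ⟨x, hx⟩ _
  obtain ⟨k, rfl⟩ := Subgroup.mem_zpowers_iff.1 hx
  show ((rind Θ g (g' ^ k) : ℤ) : ℚ) = 0
  unfold rind
  rw [if_neg, Int.cast_zero]
  intro h
  exact hs k ((rel Θ).symm h)

theorem KM_map_map {A B C : Type} [Group A] [Group B] [Group C] (φ : A →* B) (ψ : B →* C)
    (x : KM P A) : KM.map P ψ (KM.map P φ x) = KM.map P (ψ.comp φ) x := by
  obtain ⟨y, rfl⟩ := km_surj x
  rw [map_km, map_km, map_km]
  congr 1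
  refine DFinsupp.ext fun p => ?_
  rw [premap_at, premap_at, premap_at, K0map_comp, mapDomainRingHom_comp']

/-- the assembly map respects the relations -/
theorem asKM_CR (x : ColKM P G) (hx : x ∈ CR Θ 𝓗 P) : asKM P G x ∈ KR Θ 𝓗 P := by
  unfold CR at hx
  induction hx using AddSubgroup.closure_induction with
  | mem z hz =>
    rcases hz with ⟨s, hs, K, K', κ, w, hκ, rfl⟩ | ⟨H, hH, K, hK, w, rfl⟩
    · rw [map_sub, asKM_ik, asKM_ik, KM_map_map]
      have hmem : ∀ k : K.1, (k : G) ∈ s.1 := fun k => (hκ k).1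
      let χ : K.1 →* s.1 := K.1.subtype.codRestrict s.1 hmem
      have e1 : K'.1.subtype.comp κ = s.2.comp χ := by
        ext k
        obtain ⟨hk, hk2⟩ := hκ k
        exact hk2
      have e2 : K.1.subtype = s.1.subtype.comp χ := by
        ext k
        rfl
      rw [e1]
      conv in KM.map P K.1.subtype w => rw [e2]
      rw [← KM_map_map, ← KM_map_map]
      exact AddSubgroup.subset_closure (Or.inl ⟨s, hs, _, rfl⟩)
    · rw [asKM_ik]
      let χ : K.1 →* H := Subgroup.inclusion hK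
      have e2 : K.1.subtype = H.subtype.comp χ := by
        ext k
        rfl
      rw [e2, ← KM_map_map]
      exact AddSubgroup.subset_closure (Or.inr ⟨H, hH, _, rfl⟩)
  | zero => rw [map_zero]; exact (KR Θ 𝓗 P).zero_mem
  | add x y _ _ hx hy => rw [map_add]; exact (KR Θ 𝓗 P).add_mem hx hy
  | neg x _ hx => rw [map_neg]; exact (KR Θ 𝓗 P).neg_mem hx

/-- **Independence.** -/
theorem indep (hΘ : ∀ s ∈ Θ, Function.Injective s.2) {I : Type} (g : I → G)
    [hf : ∀ i, Finite (Subgroup.zpowers (g i))] (q₀ : I → P)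
    (hq : ∀ i, ((q₀ i : Nat.Primes) : ℕ) ∣ orderOf (g i))
    (hH : ∀ i, ∀ H ∈ 𝓗, ∀ z ∈ H, ¬ rel Θ z (g i))
    (hs : ∀ i j, i ≠ j → ∀ k : ℤ, ¬ rel Θ (g i ^ k) (g j)) :
    LinearIndependent ℤ (fun x : {x : I × P // ((x.2 : Nat.Primes) : ℕ) ∣ orderOf (g x.1) ∧
      x.2 ≠ q₀ x.1} => (QuotientAddGroup.mk' (KR Θ 𝓗 P) (km P G (KM.premap P
        (Subgroup.zpowers (g x.1.1)).subtype (tr0 P _ x.1.2))) : KM P G ⧸ KR Θ 𝓗 P)) := by
  rw [linearIndependent_iff']
  intro s l hl x0 hx0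
  have h1 : km P G (∑ x ∈ s, l x • KM.premap P (Subgroup.zpowers (g x.1.1)).subtype
      (tr0 P _ x.1.2)) ∈ KR Θ 𝓗 P := by
    rw [← QuotientAddGroup.eq_zero_iff, ← hl, map_sum]
    show QuotientAddGroup.mk' _ _ = _
    rw [map_sum]
    refine Finset.sum_congr rfl fun x _ => ?_
    rw [map_zsmul, map_zsmul]
  obtain ⟨d, hd, hd2⟩ := KR_le Θ 𝓗 _ h1
  rw [eq_comm, ← sub_eq_zero, ← map_sub, km_zero_iff] at hd2
  obtain ⟨b, hb⟩ := hd2
  set j := x0.1.1 with hj
  have hadm := rind_admi Θ 𝓗 (hH j)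
  have hc := Admi.cls Θ 𝓗 hadm
  set t : ℚ := T ℚ (fun x : Subgroup.zpowers (g j) => rind Θ (g j) x)
    (avgCl (Subgroup.zpowers (g j))) with ht
  have ht0 : t ≠ 0 := avg_ne Θ 𝓗 (hH j)
  have hpos : 0 < orderOf (g j) := by
    have := hf j
    rw [← Nat.card_zpowers]
    exact Nat.card_pos
  -- the values at the primes dividing the order
  have key : ∀ p : P, ((p : Nat.Primes) : ℕ) ∣ orderOf (g j) →
      algebraMap ℚ ℚ_[((p : Nat.Primes) : ℕ)] (T ℚ (rind Θ (g j)) b) =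
        ∑ x ∈ s, (l x : ℚ_[((p : Nat.Primes) : ℕ)]) * (if x.1.1 = j ∧ x.1.2 = p then
          algebraMap ℚ ℚ_[((p : Nat.Primes) : ℕ)] t else 0) := by
    intro p hp
    obtain ⟨a, ha⟩ := hb p
    have h2 : T ℤ_[((p : Nat.Primes) : ℕ)] (rind Θ (g j)) a = 0 := by
      apply T_of_cind hc
      intro y hy
      have h3 : rel Θ (g j) y := by
        by_contra h4
        exact hy (if_neg h4)
      have h5 := rel_ord Θ hΘ h3
      exact sing ((p : Nat.Primes) : ℕ) G a y (by rw [← h5]; exact hpos) (by rw [← h5]; exact hp)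
    have h3 := congrArg (T ℚ_[((p : Nat.Primes) : ℕ)] (rind Θ (g j))) ha
    rw [DFinsupp.sub_apply, map_sub, LR_T Θ 𝓗 hadm hd p, sub_zero, map_add] at h3
    unfold fromQ fromZp at h3
    rw [T_coef, T_coef, h2, map_zero, add_zero] at h3
    rw [← h3, DFinsupp.finsetSum_apply, map_sum]
    refine Finset.sum_congr rfl fun x _ => ?_
    rw [DFinsupp.zsmul_apply, map_zsmul, T_tr0 hc, zsmul_eq_mul]
    congr 1
    by_cases h6 : x.1.2 = p
    · rw [if_pos h6]
      by_cases h7 : x.1.1 = j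
      · rw [if_pos ⟨h7, h6⟩, h7]
      · rw [if_neg (fun h => h7 h.1), avg_zero Θ 𝓗 (hH j) (hs _ _ h7), map_zero]
    · rw [if_neg h6, if_neg (fun h => h6 h.2)]
  have hb0 : T ℚ (rind Θ (g j)) b = 0 := by
    have h2 := key (q₀ j) (hq j)
    rw [Finset.sum_eq_zero] at h2
    · exact (map_eq_zero_iff _ (algebraMap ℚ ℚ_[((q₀ j : Nat.Primes) : ℕ)]).injective).1 h2
    · intro x _
      rw [if_neg, mul_zero]
      rintro ⟨h3, h4⟩
      apply x.2.2
      rw [h4, h3]
  have h2 := key x0.1.2 x0.2.1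
  rw [hb0, map_zero, Finset.sum_eq_single x0] at h2
  · rw [if_pos ⟨rfl, rfl⟩] at h2
    have h3 : algebraMap ℚ ℚ_[((x0.1.2 : Nat.Primes) : ℕ)] t ≠ 0 := by
      rw [map_ne_zero_iff _ (algebraMap ℚ ℚ_[((x0.1.2 : Nat.Primes) : ℕ)]).injective]
      exact ht0
    have h4 := (mul_eq_zero.1 h2.symm).resolve_right h3
    exact_mod_cast h4
  · intro x _ hx
    rw [if_neg, mul_zero]
    rintro ⟨h3, h4⟩
    apply hx
    apply Subtype.ext
    exact Prod.ext h3 h4
  · intro h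
    exact absurd hx0 h

end

end Pool.Agent.K3h89.FJ
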